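import Pool.Agent.H389R2.NS.NoiseS

/-!
Noise sensitivity with the exact window: the estimate depends on the ratio of the scale `n` of the
domain and of the scale `r` given by the noise.
-/

set_option autoImplicit false

namespace Pool.Agent.Y197.NW

open H389NS H974 H12S Finset

theorem cel_mem {m b : ℕ} (hb : 1 ≤ b) {x : ℤ} (h1 : -(m:ℤ) ≤ x) (h2 : x ≤ m) :
    x / (b:ℤ) ∈ Finset.Icc (-((m / b : ℕ) : ℤ) - 1) ((m / b : ℕ) : ℤ) := by
  have hb0 : (0:ℤ) < b := by exact_mod_cast hb
  rw [Finset.mem_Icc]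
  constructor
  · rw [Int.le_ediv_iff_mul_le hb0]
    have h3 : m < (m / b + 1) * b := by
      have := Nat.lt_div_mul_add (a := m) hb
      calc m < m / b * b + b := this
        _ = (m / b + 1) * b := by ring
    have h4 : (m:ℤ) < ((m / b : ℕ) + 1) * b := by exact_mod_cast h3
    have e : (-((m / b : ℕ) : ℤ) - 1) * b = -(((m / b : ℕ) + 1) * b : ℤ) := by ring
    rw [e]
    linarith
  · rw [Int.ediv_le_iff_le_mul hb0]
    have h3 : m < (m / b + 1) * b := by
      have := Nat.lt_div_mul_add (a := m) hb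
      calc m < m / b * b + b := this
        _ = (m / b + 1) * b := by ring
    have h4 : (m:ℤ) < ((m / b : ℕ) + 1) * b := by exact_mod_cast h3
    have e : (((m / b : ℕ) : ℤ) + 1) * b = ((m / b : ℕ) : ℤ) * b + b := by ring
    rw [e] at h4
    linarith

/-- The number of cells which meet a box. -/
theorem card_cells {m b : ℕ} (hb : 1 ≤ b) :
    ((boxE m).image (cel b)).card ≤ (2 * (m / b) + 2) ^ 2 := by
  have h : (boxE m).image (cel b) ⊆
      Finset.Icc (-((m / b : ℕ) : ℤ) - 1) ((m / b : ℕ) : ℤ) ×ˢ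
        Finset.Icc (-((m / b : ℕ) : ℤ) - 1) ((m / b : ℕ) : ℤ) := by
    intro z hz
    rw [Finset.mem_image] at hz
    obtain ⟨e, he, rfl⟩ := hz
    obtain ⟨h1, h2, h3, h4⟩ := boxE_bd he
    rw [Finset.mem_product]
    exact ⟨cel_mem hb h1 h2, cel_mem hb h3 h4⟩
  refine (Finset.card_le_card h).trans ?_
  rw [Finset.card_product, Int.card_Icc]
  have e : (((m / b : ℕ) : ℤ) + 1 - (-((m / b : ℕ) : ℤ) - 1)).toNat = 2 * (m / b) + 2 := by
    omega
  rw [e, sq]

/-- The combination of the two estimates (no asymptotics). -/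
theorem ns_core2 {n a P J1 Zc : ℕ} (ha : 1 ≤ a) (hP : 1 ≤ P) (hJ1 : 1 ≤ J1)
    (hn : 4 * (4 * a + 4 * (P * a)) ≤ n) {p : Edg → ℝ} {S : Finset Edg} {I J I' J' : Set Vtx}
    (D : DomN p S I J I' J' n) {K θ η : ℝ} (hK : 1 ≤ K) (hθ : 0 < θ) (hη : 0 ≤ η)
    (hq : ∀ c : ℤ × ℤ, DomB p S I J I' J' c (4 * (P * a)) → blk c (4 * (P * a)) ⊆ boxE n →
      ∀ W, W ⊆ boxE n → Disjoint W (blk c (4 * (P * a))) →
      θ * ∑ T ∈ (boxE n \ W).powerset.filter (fun T => ¬ Disjoint T (blk c (4 * a))),
          sp p S (boxE n) (fC I J) T - η ≤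
        ∑ T ∈ (boxE n \ W).powerset.filter (fun T =>
          K ≤ ((T ∩ blk c (4 * (P * a))).card : ℝ)), sp p S (boxE n) (fC I J) T)
    {B : ℝ} (hB : ∑ T ∈ (boxE n).powerset.filter (fun T => ¬ Disjoint T (boxE (n / 2)) ∧
          ((T ∩ boxE (3 * n / 4)).image (cel (8 * a))).card ≤ (P + 1) ^ 2 * J1),
          sp p S (boxE n) (fC I J) T ≤ B)
    (hZc : ((boxE (3 * n / 4)).image (cel (8 * a))).card ≤ Zc)
    {x : ℝ} (hx0 : 0 ≤ x) (hx1 : x ≤ 1 - 1 / K) :
    ∑ T ∈ (boxE n).powerset.filter (fun T => ¬ Disjoint T (boxE (n / 2))),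
        sp p S (boxE n) (fC I J) T * x ^ T.card
      ≤ B + ((P : ℝ) + 1) ^ 2 * ((2 + (Zc : ℝ) * η) / (θ * J1)) := by
  classical
  have hn1 : 1 ≤ n := by omega
  have hK0 : 0 < K := by linarith
  have h1K : 1 / K ≤ 1 := by rw [div_le_one hK0]; exact hK
  have h0K : 0 ≤ 1 - 1 / K := by linarith
  have hx1' : x ≤ 1 := by
    have : 0 ≤ 1 / K := by positivity
    linarith
  have hsp0 : ∀ T, 0 ≤ sp p S (boxE n) (fC I J) T := fun T => sp_nonneg D.ok _ _ _ _
  set Zall : Finset (ℤ × ℤ) := (boxE (3 * n / 4)).image (cel (8 * a)) with hZall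
  set R : Finset (ℤ × ℤ) := Finset.Ico (0 : ℤ) ((P + 1 : ℕ) : ℤ) ×ˢ Finset.Ico (0 : ℤ) ((P + 1 : ℕ) : ℤ)
    with hR
  set res : ℤ × ℤ → ℤ × ℤ := fun z => (z.1 % ((P + 1 : ℕ) : ℤ), z.2 % ((P + 1 : ℕ) : ℤ)) with hres
  have hP1 : (0 : ℤ) < ((P + 1 : ℕ) : ℤ) := by push_cast; omega
  have hRcard : R.card = (P + 1) ^ 2 := by
    rw [hR, Finset.card_product, Int.card_Ico]
    have : (((P + 1 : ℕ) : ℤ) - 0).toNat = P + 1 := by omega
    rw [this]; ring
  have hresR : ∀ z, res z ∈ R := by
    intro z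
    simp only [hR, hres, Finset.mem_product, Finset.mem_Ico]
    exact ⟨⟨Int.emod_nonneg _ hP1.ne', Int.emod_lt_of_pos _ hP1⟩,
      ⟨Int.emod_nonneg _ hP1.ne', Int.emod_lt_of_pos _ hP1⟩⟩
  -- bounds for the centres
  have hcen : ∀ z ∈ Zall, |(czN a z).1| + ((4 * (P * a) : ℕ) : ℤ) ≤ n ∧
      |(czN a z).2| + ((4 * (P * a) : ℕ) : ℤ) ≤ n := by
    intro z hz
    rw [hZall, Finset.mem_image] at hz
    obtain ⟨e, he, rfl⟩ := hz
    have h1 := centre_bd ha he
    have h2 : ((3 * n / 4 : ℕ) : ℤ) + 4 * a + ((4 * (P * a) : ℕ) : ℤ) ≤ n := by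
      have h3 : 3 * n / 4 + 4 * a + 4 * (P * a) ≤ n := by omega
      exact_mod_cast h3
    constructor <;> linarith [h1.1, h1.2]
  have hZcard : (Zall.card : ℝ) ≤ (Zc : ℝ) := by
    exact_mod_cast hZc
  -- one class
  have hclass : ∀ κ ∈ R, ∑ T ∈ (boxE n).powerset.filter (fun T => J1 ≤
      ((Zall.filter (fun z => res z = κ)).filter
        (fun z => ¬ Disjoint T (blk (czN a z) (4 * a)))).card),
      sp p S (boxE n) (fC I J) T * (1 - 1 / K) ^ T.card
      ≤ (2 + (Zc : ℝ) * η) / (θ * J1) := by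
    intro κ _
    have hmb := many_blocks (V := boxE n) (μ := sp p S (boxE n) (fC I J))
      (fun T _ => hsp0 T) (sum_sp_le_one D.ok D.sub D.fair I J)
      (Zall.filter (fun z => res z = κ)) (fun z => blk (czN a z) (4 * a))
      (fun z => blk (czN a z) (4 * (P * a)))
      (by
        intro z _
        unfold blk
        have h1 : a ≤ P * a := Nat.le_mul_of_pos_left a hP
        have h2 : ((4 * a : ℕ) : ℤ) ≤ ((4 * (P * a) : ℕ) : ℤ) := by exact_mod_cast (by omega)
        apply RE_subset <;> linarith)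
      (by
        intro z hz
        have hc := hcen z (Finset.mem_filter.mp hz).1
        exact blk_sub_boxE hc.1 hc.2)
      (by
        intro z hz z' hz' hzz
        have e1 := (Finset.mem_filter.mp hz).2
        have e2 := (Finset.mem_filter.mp hz').2
        have e3 : res z = res z' := e1.trans e2.symm
        simp only [hres, Prod.mk.injEq] at e3
        exact blk_disj ha hzz e3.1 e3.2)
      hK hθ hη
      (by
        intro z hz W hW hWd
        have hc := hcen z (Finset.mem_filter.mp hz).1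
        exact hq (czN a z) (domB_of D hc.1 hc.2) (blk_sub_boxE hc.1 hc.2) W hW hWd)
      hJ1
    refine hmb.trans ?_
    have hJ0 : (0 : ℝ) < J1 := by exact_mod_cast hJ1
    refine div_le_div_of_nonneg_right ?_ (by positivity)
    have h1 : (((Zall.filter (fun z => res z = κ)).card : ℕ) : ℝ) ≤ (Zc : ℝ) := by
      refine le_trans ?_ hZcard
      exact_mod_cast Finset.card_filter_le _ _
    have := mul_le_mul_of_nonneg_right h1 hη
    linarith
  -- splitting
  have hsplit : ∀ T ∈ (boxE n).powerset.filter (fun T => ¬ Disjoint T (boxE (n / 2))),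
      sp p S (boxE n) (fC I J) T * x ^ T.card ≤
        (if ((T ∩ boxE (3 * n / 4)).image (cel (8 * a))).card ≤ (P + 1) ^ 2 * J1 then
          sp p S (boxE n) (fC I J) T else 0) +
        ∑ κ ∈ R, (if J1 ≤ ((Zall.filter (fun z => res z = κ)).filter
          (fun z => ¬ Disjoint T (blk (czN a z) (4 * a)))).card then
            sp p S (boxE n) (fC I J) T * (1 - 1 / K) ^ T.card else 0) := by
    intro T hT
    have hterm0 : ∀ κ ∈ R, 0 ≤ (if J1 ≤ ((Zall.filter (fun z => res z = κ)).filter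
          (fun z => ¬ Disjoint T (blk (czN a z) (4 * a)))).card then
            sp p S (boxE n) (fC I J) T * (1 - 1 / K) ^ T.card else 0) := by
      intro κ _
      split_ifs
      · exact mul_nonneg (hsp0 T) (pow_nonneg h0K _)
      · exact le_refl _
    have hxT : x ^ T.card ≤ 1 := pow_le_one₀ hx0 hx1'
    by_cases hc : ((T ∩ boxE (3 * n / 4)).image (cel (8 * a))).card ≤ (P + 1) ^ 2 * J1
    · rw [if_pos hc]
      have h1 : sp p S (boxE n) (fC I J) T * x ^ T.card ≤ sp p S (boxE n) (fC I J) T :=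
        mul_le_of_le_one_right (hsp0 T) hxT
      have h2 := Finset.sum_nonneg hterm0
      linarith
    · rw [if_neg hc, zero_add]
      push Not at hc
      have hpg := Finset.exists_lt_card_fiber_of_mul_lt_card_of_maps_to
        (s := (T ∩ boxE (3 * n / 4)).image (cel (8 * a))) (t := R) (f := res) (n := J1)
        (fun z _ => hresR z) (by rw [hRcard]; exact hc)
      obtain ⟨κ, hκ, hlt⟩ := hpg
      have hsub : ((T ∩ boxE (3 * n / 4)).image (cel (8 * a))).filter (fun z => res z = κ) ⊆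
          (Zall.filter (fun z => res z = κ)).filter
            (fun z => ¬ Disjoint T (blk (czN a z) (4 * a))) := by
        intro z hz
        rw [Finset.mem_filter, Finset.mem_image] at hz
        obtain ⟨⟨e, he, hez⟩, hzκ⟩ := hz
        rw [Finset.mem_inter] at he
        rw [Finset.mem_filter, Finset.mem_filter]
        refine ⟨⟨?_, hzκ⟩, ?_⟩
        · rw [hZall, Finset.mem_image]
          exact ⟨e, he.2, hez⟩
        · rw [Finset.not_disjoint_iff]
          refine ⟨e, he.1, ?_⟩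
          rw [← hez]
          exact mem_blk_cel ha e
      have hcard := Finset.card_le_card hsub
      have hJle : J1 ≤ ((Zall.filter (fun z => res z = κ)).filter
            (fun z => ¬ Disjoint T (blk (czN a z) (4 * a)))).card := by omega
      refine le_trans ?_ (Finset.single_le_sum hterm0 hκ)
      rw [if_pos hJle]
      exact mul_le_mul_of_nonneg_left (pow_le_pow_left₀ hx0 hx1 _) (hsp0 T)
  refine (Finset.sum_le_sum hsplit).trans ?_
  rw [Finset.sum_add_distrib]
  refine add_le_add ?_ ?_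
  · refine le_trans (le_of_eq ?_) hB
    rw [← Finset.sum_filter, Finset.filter_filter]
  · rw [Finset.sum_comm]
    have h1 : ∀ κ ∈ R, ∑ T ∈ (boxE n).powerset.filter (fun T => ¬ Disjoint T (boxE (n / 2))),
        (if J1 ≤ ((Zall.filter (fun z => res z = κ)).filter
          (fun z => ¬ Disjoint T (blk (czN a z) (4 * a)))).card then
            sp p S (boxE n) (fC I J) T * (1 - 1 / K) ^ T.card else 0)
        ≤ (2 + (Zc : ℝ) * η) / (θ * J1) := by
      intro κ hκ
      refine le_trans ?_ (hclass κ hκ)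
      rw [← Finset.sum_filter]
      refine Finset.sum_le_sum_of_subset_of_nonneg ?_
        (fun T _ _ => mul_nonneg (hsp0 T) (pow_nonneg h0K _))
      intro T hT
      rw [Finset.mem_filter, Finset.mem_filter] at hT
      rw [Finset.mem_filter]
      exact ⟨hT.1.1, hT.2⟩
    refine (Finset.sum_le_sum h1).trans ?_
    rw [Finset.sum_const, hRcard, nsmul_eq_mul]
    push_cast
    exact le_refl _


end Pool.Agent.Y197.NW
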