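import Pool.Agent.Y197.NW.Fin
import Pool.Agent.H389R2.NS.F1a

/-! The crossing of a rectangle in dynamical percolation. -/

set_option autoImplicit false

namespace Pool.Agent.Y197.NW

open H389NS H974 H12S Finset MeasureTheory

variable {Ω : Type*} [MeasurableSpace Ω] {μ : Measure Ω} [IsProbabilityMeasure μ]
  {ω : ℝ → Ω → Edg → Bool}

/-- The open edges of the rectangle at time `t`. -/
def opS (S : Finset Edg) (ω : ℝ → Ω → Edg → Bool) (t : ℝ) (x : Ω) : Finset Edg :=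
  S.filter (fun e => ω t x e = true)

theorem dp_meas (h : IsDP μ ω) (S : Finset Edg) (A : Finset Edg → Prop) (t : ℝ) :
    MeasurableSet {x | A (opS S ω t x)} := by
  classical
  have h1 : {x | A (opS S ω t x)} =
      (fun x => fun e : {e // e ∈ S} => ω t x e) ⁻¹'
        {g | A (S.filter (fun e => ∃ hx : e ∈ S, g ⟨e, hx⟩ = true))} := by
    ext x
    rw [Set.mem_preimage]
    show A (opS S ω t x) ↔ A _
    have : opS S ω t x = S.filter (fun e => ∃ _ : e ∈ S, ω t x e = true) :=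
      Finset.filter_congr (fun e he => ⟨fun h => ⟨he, h⟩, fun ⟨_, h⟩ => h⟩)
    rw [this]
  rw [h1]
  have hm : Measurable (fun x => fun e : {e // e ∈ S} => ω t x e) :=
    measurable_pi_iff.2 fun e => h.meas t e
  exact hm (Set.Finite.measurableSet (Set.toFinite _))

theorem dp_cross (h : IsDP μ ω) {w k : ℕ} (hw : 1 ≤ w) {t : ℝ} (ht : 0 ≤ t) :
    μ.real {x | Cr w k (opS (RE 0 w 0 k) ω t x)} = hh (1/2) w k := by
  have h1 := dp_one1 h ht (RE 0 w 0 k) (Cr w k)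
  exact h1.trans (Pr_Cr (1/2) hw)

theorem dp_both (h : IsDP μ ω) (w k : ℕ) {s t : ℝ} (hs : 0 ≤ s) (hst : s ≤ t) :
    μ.real {x | Cr w k (opS (RE 0 w 0 k) ω s x) ∧ Cr w k (opS (RE 0 w 0 k) ω t x)} =
      V2 w k (Real.exp (-(t - s))) :=
  dp_two1 h hs hst (RE 0 w 0 k) (Cr w k) (Cr w k)

theorem dp_change (h : IsDP μ ω) {w k : ℕ} (hw : 1 ≤ w) {s t : ℝ} (hs : 0 ≤ s) (hst : s ≤ t) :
    μ.real {x | ¬ (Cr w k (opS (RE 0 w 0 k) ω s x) ↔ Cr w k (opS (RE 0 w 0 k) ω t x))} =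
      2 * D2 w k (Real.exp (-(t - s))) := by
  obtain ⟨A, hA⟩ : ∃ A : Finset Edg → Prop, A = Cr w k := ⟨_, rfl⟩
  obtain ⟨S, hS⟩ : ∃ S : Finset Edg, S = RE 0 w 0 k := ⟨_, rfl⟩
  have e1 : μ.real {x | A (opS S ω s x) ∧ ¬ A (opS S ω t x)} = D2 w k (Real.exp (-(t - s))) := by
    have h1 := dp_two1 h hs hst S A (fun F => ¬ A F)
    rw [← D2_eq hw, ← hS, ← hA]
    exact h1
  have e2 : μ.real {x | ¬ A (opS S ω s x) ∧ A (opS S ω t x)} = D2 w k (Real.exp (-(t - s))) := by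
    have h1 := dp_two1 h hs hst S (fun F => ¬ A F) A
    rw [← D2_eq hw, ← hS, ← hA, ← P2_comm]
    exact h1
  rw [← hA, ← hS]
  have e3 : {x | ¬ (A (opS S ω s x) ↔ A (opS S ω t x))} =
      {x | A (opS S ω s x) ∧ ¬ A (opS S ω t x)} ∪ {x | ¬ A (opS S ω s x) ∧ A (opS S ω t x)} := by
    ext x
    simp only [Set.mem_setOf_eq, Set.mem_union]
    tauto
  rw [e3, measureReal_union]
  · rw [e1, e2]; ring
  · rw [Set.disjoint_left]
    rintro x ⟨h1, _⟩ ⟨h2, _⟩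
    exact h2 h1
  · exact (dp_meas h S (fun F => ¬ A F) s).inter (dp_meas h S A t)

theorem main (K : ℕ) (hK : 1 ≤ K) : ∃ c C γ : ℝ, 0 < c ∧ 0 < C ∧ 0 < γ ∧
    ∀ (Ω : Type) [MeasurableSpace Ω] (μ : Measure Ω) [IsProbabilityMeasure μ]
      (ω : ℝ → Ω → Edg → Bool), IsDP μ ω → ∀ w k : ℕ, 2 ≤ w → w ≤ K * k → k ≤ K * w →
      ∀ s t : ℝ, 0 ≤ s → s < t →
      (c * Real.exp (-(C * ((t - s) * (w:ℝ) ^ (3/4 : ℝ)))) ≤
          μ.real {x | Cr w k (opS (RE 0 w 0 k) ω s x) ∧ Cr w k (opS (RE 0 w 0 k) ω t x)} -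
            μ.real {x | Cr w k (opS (RE 0 w 0 k) ω s x)} *
              μ.real {x | Cr w k (opS (RE 0 w 0 k) ω t x)} ∧
        μ.real {x | Cr w k (opS (RE 0 w 0 k) ω s x) ∧ Cr w k (opS (RE 0 w 0 k) ω t x)} -
            μ.real {x | Cr w k (opS (RE 0 w 0 k) ω s x)} *
              μ.real {x | Cr w k (opS (RE 0 w 0 k) ω t x)} ≤
          C * (min 1 (t - s) * (w:ℝ) ^ (3/4 : ℝ)) ^ (-γ)) ∧
      (c * min 1 ((t - s) * (w:ℝ) ^ (3/4 : ℝ)) ≤
          μ.real {x | ¬ (Cr w k (opS (RE 0 w 0 k) ω s x) ↔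
            Cr w k (opS (RE 0 w 0 k) ω t x))} ∧
        μ.real {x | ¬ (Cr w k (opS (RE 0 w 0 k) ω s x) ↔
            Cr w k (opS (RE 0 w 0 k) ω t x))} ≤
          C * min 1 ((t - s) * (w:ℝ) ^ (3/4 : ℝ))) := by
  obtain ⟨C1, γ, hC1, hγ, h1⟩ := upper K hK
  obtain ⟨c2, C2, hc2, hC2, h2⟩ := window K hK
  obtain ⟨c3, C3, hc3, hC3, h3⟩ := cov_low K hK
  refine ⟨min (2 * c2) c3, max (max C1 (2 * C2)) C3, γ, by positivity, by positivity, hγ, ?_⟩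
  intro Ω _ μ _ ω h w k hw hwk hkw s t hs hst
  have hw1 : 1 ≤ w := by omega
  have hts : 0 < t - s := by linarith
  have hw0 : (0:ℝ) < w := by exact_mod_cast hw1
  rw [dp_change h hw1 hs hst.le, dp_both h w k hs hst.le, dp_cross h hw1 hs,
    dp_cross h hw1 (hs.trans hst.le), ← sq]
  have a1 := h1 w k hw1 hwk hkw (t - s) hts
  obtain ⟨a2, a3⟩ := h2 w k hw hwk hkw (t - s) hts
  have a4 := h3 w k hw hwk hkw (t - s) hts
  have b1 : 0 ≤ (min 1 (t - s) * (w:ℝ) ^ (3/4 : ℝ)) ^ (-γ) := by positivity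
  have b2 : 0 ≤ min 1 ((t - s) * (w:ℝ) ^ (3/4 : ℝ)) := by positivity
  have b3 : 0 ≤ (t - s) * (w:ℝ) ^ (3/4 : ℝ) := by positivity
  have m1 : C1 ≤ max (max C1 (2 * C2)) C3 := (le_max_left _ _).trans (le_max_left _ _)
  have m2 : 2 * C2 ≤ max (max C1 (2 * C2)) C3 := (le_max_right _ _).trans (le_max_left _ _)
  have m3 : C3 ≤ max (max C1 (2 * C2)) C3 := le_max_right _ _
  have m4 : min (2 * c2) c3 ≤ 2 * c2 := min_le_left _ _
  have m5 : min (2 * c2) c3 ≤ c3 := min_le_right _ _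
  refine ⟨⟨?_, a1.trans (mul_le_mul_of_nonneg_right m1 b1)⟩, ?_, ?_⟩
  · refine le_trans ?_ a4
    refine mul_le_mul m5 (Real.exp_le_exp.mpr ?_) (Real.exp_pos _).le hc3.le
    exact neg_le_neg (mul_le_mul_of_nonneg_right m3 b3)
  · calc min (2 * c2) c3 * min 1 ((t - s) * (w:ℝ) ^ (3/4 : ℝ)) ≤
          (2 * c2) * min 1 ((t - s) * (w:ℝ) ^ (3/4 : ℝ)) := mul_le_mul_of_nonneg_right m4 b2
      _ = 2 * (c2 * min 1 ((t - s) * (w:ℝ) ^ (3/4 : ℝ))) := by ring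
      _ ≤ _ := by linarith
  · calc 2 * D2 w k (Real.exp (-(t - s))) ≤
          2 * (C2 * min 1 ((t - s) * (w:ℝ) ^ (3/4 : ℝ))) := by linarith
      _ = (2 * C2) * min 1 ((t - s) * (w:ℝ) ^ (3/4 : ℝ)) := by ring
      _ ≤ _ := mul_le_mul_of_nonneg_right m2 b2

end Pool.Agent.Y197.NW
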