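import Pool.Agent.Y197.NW.Dyn
import Pool.Agent.TH291.NW.Brg

/-! Stability of the connection events of planar domains in dynamical percolation. -/

set_option autoImplicit false

namespace Pool.Agent.Y197.NW

open H389NS H974 H12S Finset MeasureTheory

theorem dp_change_le {Ω : Type*} [MeasurableSpace Ω] {μ : Measure Ω} [IsProbabilityMeasure μ]
    {ω : ℝ → Ω → Edg → Bool} (h : IsDP μ ω) {s t : ℝ} (hs : 0 ≤ s) (hst : s ≤ t)
    (S : Finset Edg) (A : Finset Edg → Prop) (hA : ∀ F G : Finset Edg, F ⊆ G → A F → A G) :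
    μ.real {x | ¬ (A (opS S ω s x) ↔ A (opS S ω t x))} ≤
      Pr (fun _ => (3 - Real.exp (-(t - s))) / 4) S A -
        Pr (fun _ => (1 + Real.exp (-(t - s))) / 4) S A := by
  have hx1 : Real.exp (-(t - s)) ≤ 1 := Real.exp_le_one_iff.mpr (by linarith)
  have h2 := P2_not_le (Real.exp_pos (-(t - s))).le hx1 (S := S) hA
  have e1 : μ.real {x | A (opS S ω s x) ∧ ¬ A (opS S ω t x)} =
      P2 (fun _ => Real.exp (-(t - s))) S A (fun F => ¬ A F) :=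
    dp_two1 h hs hst S A (fun F => ¬ A F)
  have e2 : μ.real {x | ¬ A (opS S ω s x) ∧ A (opS S ω t x)} =
      P2 (fun _ => Real.exp (-(t - s))) S A (fun F => ¬ A F) := by
    rw [P2_comm]
    exact dp_two1 h hs hst S (fun F => ¬ A F) A
  have e3 : {x | ¬ (A (opS S ω s x) ↔ A (opS S ω t x))} =
      {x | A (opS S ω s x) ∧ ¬ A (opS S ω t x)} ∪ {x | ¬ A (opS S ω s x) ∧ A (opS S ω t x)} := by
    ext x
    show ¬ (A (opS S ω s x) ↔ A (opS S ω t x)) ↔ (A (opS S ω s x) ∧ ¬ A (opS S ω t x)) ∨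
      (¬ A (opS S ω s x) ∧ A (opS S ω t x))
    tauto
  rw [e3]
  refine (measureReal_union_le _ _).trans ?_
  rw [e1, e2]
  linarith

theorem dom_change (ρ M σ A : ℝ) (hM : 0 ≤ M) (hσ0 : 0 ≤ σ) (hσ : σ < 3/2) (hA : 0 ≤ A) :
    ∃ C : ℝ, 0 < C ∧ ∀ (Ω : Type) [MeasurableSpace Ω] (μ : Measure Ω) [IsProbabilityMeasure μ]
      (ω : ℝ → Ω → Edg → Bool), IsDP μ ω → ∀ D : Set (ℝ × ℝ), (∀ x ∈ D, |x.1| ≤ ρ ∧ |x.2| ≤ ρ) →
      TH291.NW.Cov (frontier D) M σ → ∀ δ : ℝ, 0 < δ → δ ≤ 1 → ∀ N : ℕ, ρ + δ ≤ δ * N →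
      ∀ I J : Set (ℤ × ℤ), (∀ v ∈ I ∪ J, ∃ x ∈ frontier D, dist x (TH291.NW.pt δ v) ≤ A * δ) →
      ∀ s t : ℝ, 0 ≤ s → s ≤ t →
      μ.real {x | ¬ (Cn I J (↑(opS (TH291.NW.SE D δ N) ω s x) : Set Edg) ↔
        Cn I J (↑(opS (TH291.NW.SE D δ N) ω t x) : Set Edg))} ≤
        C * (t - s) * δ ^ (-(3/4 : ℝ)) := by
  obtain ⟨C, hC, h⟩ := TH291.NW.dom_stab TH291.NW.stU ρ M σ A hM hσ0 hσ hA
  refine ⟨C, hC, ?_⟩
  intro Ω _ μ _ ω hdp D hD hcov δ hδ hδ1 N hN I J hIJ s t hs hst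
  have h1 := h D (frontier D) (Set.Subset.refl _) hD hcov δ hδ hδ1 N hN I J hIJ
  have hx0 := Real.exp_pos (-(t - s))
  have hx1 : Real.exp (-(t - s)) ≤ 1 := Real.exp_le_one_iff.mpr (by linarith)
  have h2 := h1 ((3 - Real.exp (-(t - s))) / 4) (by linarith) (by linarith)
  have h3 := h1 ((1 + Real.exp (-(t - s))) / 4) (by linarith) (by linarith)
  have h4 : 1 - Real.exp (-(t - s)) ≤ t - s := by
    have := Real.add_one_le_exp (-(t - s))
    linarith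
  have h5 := dp_change_le hdp hs hst (TH291.NW.SE D δ N) (fun F => Cn I J (↑F : Set Edg))
    (fun F G hFG hF => by
      obtain ⟨u, hu, v, hv, hr⟩ := hF
      exact ⟨u, hu, v, hv, hr.mono (Finset.coe_subset.mpr hFG)⟩)
  refine h5.trans ?_
  obtain ⟨d, hd⟩ : ∃ d : ℝ, d = δ ^ (-(3/4 : ℝ)) := ⟨_, rfl⟩
  have hd0 : 0 < d := by rw [hd]; positivity
  rw [← hd] at h2 h3 ⊢
  rw [show |(3 - Real.exp (-(t - s))) / 4 - 1 / 2| = (1 - Real.exp (-(t - s))) / 4 by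
    rw [abs_of_nonneg (by linarith)]; ring] at h2
  rw [show |(1 + Real.exp (-(t - s))) / 4 - 1 / 2| = (1 - Real.exp (-(t - s))) / 4 by
    rw [abs_of_nonpos (by linarith)]; ring] at h3
  have h6 := (abs_le.mp h2).2
  have h7 := (abs_le.mp h3).1
  have h8 : C * ((1 - Real.exp (-(t - s))) / 4) * d ≤ C * ((t - s) / 4) * d :=
    mul_le_mul_of_nonneg_right (mul_le_mul_of_nonneg_left (by linarith) hC.le) hd0.le
  have h9 : 0 ≤ C * (t - s) * d := by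
    have : 0 ≤ t - s := by linarith
    positivity
  have h10 : C * ((t - s) / 4) * d = C * (t - s) * d / 4 := by ring
  linarith

end Pool.Agent.Y197.NW
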