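import Pool.Agent.Y197.NW.Mono
import Pool.Agent.W424.AR.Order

/-! The exact window of the noise sensitivity of the crossing of a rectangle. -/

set_option autoImplicit false

namespace Pool.Agent.Y197.NW

open H389NS H974 H12S Finset

theorem exp_half {δ : ℝ} (h0 : 0 ≤ δ) (h1 : δ ≤ 1) : δ / 2 ≤ 1 - Real.exp (-δ) := by
  have h2 : 1 + δ ≤ Real.exp δ := by linarith [Real.add_one_le_exp δ]
  have h3 : Real.exp (-δ) * Real.exp δ = 1 := by rw [← Real.exp_add]; simp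
  have h4 : 0 < Real.exp (-δ) := Real.exp_pos _
  have h5 : Real.exp (-δ) * (1 + δ) ≤ 1 :=
    (mul_le_mul_of_nonneg_left h2 h4.le).trans h3.le
  nlinarith

theorem one_sub_exp {t : ℝ} (ht : 0 ≤ t) : min 1 t / 2 ≤ 1 - Real.exp (-t) := by
  have h1 : 0 ≤ min 1 t := le_min zero_le_one ht
  have h2 := exp_half h1 (min_le_left 1 t)
  have h3 : Real.exp (-t) ≤ Real.exp (-(min 1 t)) :=
    Real.exp_le_exp.mpr (neg_le_neg (min_le_right 1 t))
  linarith

theorem V2_ge {w h : ℕ} (hw : 1 ≤ w) {x : ℝ} (h0 : 0 ≤ x) :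
    (hh (1/2) w h) ^ 2 ≤ V2 w h x := by
  rw [← V2_zero hw]
  exact V2_mono le_rfl h0

/-- The change is at least `(1 - x)` times the variance. -/
theorem D2_lin {w h : ℕ} (hw : 1 ≤ w) {x : ℝ} (h0 : 0 ≤ x) (h1 : x ≤ 1) :
    (1 - x) * (hh (1/2) w h - (hh (1/2) w h) ^ 2) ≤ D2 w h x := by
  have e1 := V2_sum w h x
  have e2 := V2_sum w h 1
  have e3 := V2_sum w h 0
  rw [V2_one hw] at e2
  rw [V2_zero hw] at e3
  unfold D2
  rw [e1, e3]
  conv_lhs => rw [e2]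
  conv_rhs => rw [e2]
  rw [← Finset.sum_sub_distrib, ← Finset.sum_sub_distrib, Finset.mul_sum]
  refine Finset.sum_le_sum (fun T _ => ?_)
  obtain ⟨a, ha⟩ : ∃ a : ℝ, a = (wal (RE 0 (w:ℤ) 0 h) (fR w h) T) ^ 2 := ⟨_, rfl⟩
  have ha0 : 0 ≤ a := by rw [ha]; exact sq_nonneg _
  rw [← ha]
  rcases Nat.eq_zero_or_pos T.card with h2 | h2
  · rw [h2]; simp
  · have h3 : x ^ T.card ≤ x := by
      calc x ^ T.card ≤ x ^ 1 := pow_le_pow_of_le_one h0 h1 h2
        _ = x := pow_one x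
    rw [one_pow, zero_pow (by omega)]
    nlinarith

theorem upper (K : ℕ) (hK : 1 ≤ K) : ∃ C γ : ℝ, 0 < C ∧ 0 < γ ∧ ∀ w h : ℕ, 1 ≤ w →
    w ≤ K * h → h ≤ K * w → ∀ t : ℝ, 0 < t →
      V2 w h (Real.exp (-t)) - (hh (1/2) w h) ^ 2 ≤
        C * (min 1 t * (w:ℝ) ^ (3/4 : ℝ)) ^ (-γ) := by
  obtain ⟨C, γ, κ, r0, hC, hγ, hκ, hr0, hκr, hmain⟩ := cov_le K hK
  obtain ⟨A, hA⟩ : ∃ A : ℝ, A = (r0:ℝ) + 1 + (2 / κ) ^ (4/3 : ℝ) := ⟨_, rfl⟩
  have hA0 : 0 < A := by rw [hA]; positivity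
  refine ⟨C * A ^ γ, γ * (4/3), by positivity, by positivity, ?_⟩
  intro w h hw h1 h2 t ht
  obtain ⟨s, hs⟩ : ∃ s : ℝ, s = min 1 t := ⟨_, rfl⟩
  have hs0 : 0 < s := by rw [hs]; exact lt_min one_pos ht
  have hs1 : s ≤ 1 := by rw [hs]; exact min_le_left _ _
  have hx : s / 2 ≤ 1 - Real.exp (-t) := by rw [hs]; exact one_sub_exp ht.le
  have hw0 : (0:ℝ) < w := by exact_mod_cast hw
  rw [← hs]
  obtain ⟨r, hr⟩ : ∃ r : ℕ, r = max r0 ⌈(2 / (κ * s)) ^ (4/3 : ℝ)⌉₊ := ⟨_, rfl⟩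
  have hr1 : r0 ≤ r := by rw [hr]; exact le_max_left _ _
  have hr2 : (2 / (κ * s)) ^ (4/3 : ℝ) ≤ r := by
    rw [hr]
    exact (Nat.le_ceil _).trans (by exact_mod_cast le_max_right _ _)
  have hrp : (0:ℝ) < r := by exact_mod_cast (lt_of_lt_of_le (by omega) hr1)
  have hs43 : 1 ≤ s ^ (-(4/3) : ℝ) :=
    Real.one_le_rpow_of_pos_of_le_one_of_nonpos hs0 hs1 (by norm_num)
  have hr3 : (r:ℝ) ≤ A * s ^ (-(4/3) : ℝ) := by
    have e1 : (2 / (κ * s)) ^ (4/3 : ℝ) = (2 / κ) ^ (4/3 : ℝ) * s ^ (-(4/3) : ℝ) := by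
      rw [show 2 / (κ * s) = (2 / κ) * s⁻¹ by field_simp, Real.mul_rpow (by positivity)
        (by positivity), Real.inv_rpow hs0.le, ← Real.rpow_neg hs0.le]
    have e2 : (r:ℝ) ≤ r0 + ((2 / (κ * s)) ^ (4/3 : ℝ) + 1) := by
      have h3 : (r:ℝ) ≤ r0 + (⌈(2 / (κ * s)) ^ (4/3 : ℝ)⌉₊ : ℝ) := by
        have : r ≤ r0 + ⌈(2 / (κ * s)) ^ (4/3 : ℝ)⌉₊ := by rw [hr]; omega
        exact_mod_cast this
      have h4 := Nat.ceil_lt_add_one (a := (2 / (κ * s)) ^ (4/3 : ℝ)) (by positivity)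
      linarith
    rw [e1] at e2
    rw [hA]
    have h5 : 0 ≤ (2 / κ) ^ (4/3 : ℝ) := by positivity
    have h6 : (0:ℝ) ≤ r0 := by positivity
    nlinarith
  have hxr : Real.exp (-t) ≤ 1 - 1 / (κ * (r:ℝ) ^ (3/4 : ℝ)) := by
    have h3 : 2 / (κ * s) ≤ (r:ℝ) ^ (3/4 : ℝ) := by
      have h4 := Real.rpow_le_rpow (by positivity) hr2 (show (0:ℝ) ≤ 3/4 by norm_num)
      rw [← Real.rpow_mul (by positivity), show (4/3 : ℝ) * (3/4) = 1 by norm_num,
        Real.rpow_one] at h4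
      exact h4
    have h5 : 1 / (κ * (r:ℝ) ^ (3/4 : ℝ)) ≤ s / 2 := by
      rw [div_le_div_iff₀ (by positivity) (by norm_num)]
      rw [div_le_iff₀ (by positivity)] at h3
      linarith
    linarith
  refine (hmain w h r hw h1 h2 hr1 _ (Real.exp_pos _).le hxr).trans ?_
  have h7 : (r:ℝ) / w ≤ A * (s ^ (-(4/3) : ℝ) / w) := by
    rw [← mul_div_assoc]
    exact div_le_div_of_nonneg_right hr3 hw0.le
  have h8 := Real.rpow_le_rpow (by positivity) h7 hγ.le
  have e9 : (A * (s ^ (-(4/3) : ℝ) / w)) ^ γ =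
      A ^ γ * (s * (w:ℝ) ^ (3/4 : ℝ)) ^ (-(γ * (4/3))) := by
    rw [Real.mul_rpow hA0.le (by positivity)]
    congr 1
    have e10 : s ^ (-(4/3) : ℝ) / w = (s * (w:ℝ) ^ (3/4 : ℝ)) ^ (-(4/3) : ℝ) := by
      rw [Real.mul_rpow hs0.le (by positivity), ← Real.rpow_mul hw0.le,
        show (3/4 : ℝ) * (-(4/3)) = -1 by norm_num, Real.rpow_neg_one]
      rfl
    rw [e10, ← Real.rpow_mul (by positivity)]
    congr 1
    ring
  rw [e9] at h8
  calc C * ((r:ℝ) / w) ^ γ ≤ C * (A ^ γ * (s * (w:ℝ) ^ (3/4 : ℝ)) ^ (-(γ * (4/3)))) :=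
        mul_le_mul_of_nonneg_left h8 hC.le
    _ = C * A ^ γ * (s * (w:ℝ) ^ (3/4 : ℝ)) ^ (-(γ * (4/3))) := by ring

theorem var_low (K : ℕ) (hK : 1 ≤ K) : ∃ a : ℝ, 0 < a ∧ a ≤ 1 ∧ ∀ w h : ℕ, 2 ≤ w →
    w ≤ K * h → h ≤ K * w → a ≤ hh (1/2) w h - (hh (1/2) w h) ^ 2 := by
  obtain ⟨c1, hc1, hc1', h1⟩ := Pool.Agent.W424.AR.rsw K hK
  obtain ⟨c2, hc2, h2⟩ := Pool.Agent.W424.AR.rsw_dual K hK
  refine ⟨min 1 (c1 * c2), by positivity, min_le_left _ _, ?_⟩
  intro w h hw hwh hhw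
  refine (min_le_right _ _).trans ?_
  have hh1 : 1 ≤ h := by
    rcases Nat.eq_zero_or_pos h with h0 | h0
    · subst h0; omega
    · exact h0
  have a1 := h1 w h (by omega) (by omega) (by exact_mod_cast hwh)
  have a2 := h2 w h (by omega) (by omega) (by exact_mod_cast hhw)
  have e : hh (1/2) w h - (hh (1/2) w h) ^ 2 = hh (1/2) w h * (1 - hh (1/2) w h) := by ring
  rw [e]
  exact mul_le_mul a1 a2 hc2.le (hc1.le.trans a1)

theorem window (K : ℕ) (hK : 1 ≤ K) : ∃ c C : ℝ, 0 < c ∧ 0 < C ∧ ∀ w h : ℕ, 2 ≤ w →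
    w ≤ K * h → h ≤ K * w → ∀ t : ℝ, 0 < t →
      c * min 1 (t * (w:ℝ) ^ (3/4 : ℝ)) ≤ D2 w h (Real.exp (-t)) ∧
      D2 w h (Real.exp (-t)) ≤ C * min 1 (t * (w:ℝ) ^ (3/4 : ℝ)) := by
  obtain ⟨C, γ, hC, hγ, hup⟩ := upper K hK
  obtain ⟨a, ha, ha1, hvar⟩ := var_low K hK
  obtain ⟨C1, hC1, hD⟩ := D2_up K
  -- the constant `M`
  obtain ⟨M, hM⟩ : ∃ M : ℝ, M = max 1 ((2 * C / a) ^ (1 / γ)) := ⟨_, rfl⟩
  have hM1 : 1 ≤ M := by rw [hM]; exact le_max_left _ _
  have hM0 : 0 < M := by linarith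
  have hMC : C * M ^ (-γ) ≤ a / 2 := by
    have h1 : (2 * C / a) ^ (1 / γ) ≤ M := by rw [hM]; exact le_max_right _ _
    have h2 := Real.rpow_le_rpow (by positivity) h1 hγ.le
    rw [← Real.rpow_mul (by positivity), one_div_mul_cancel hγ.ne', Real.rpow_one] at h2
    rw [Real.rpow_neg hM0.le, ← div_eq_mul_inv, div_le_iff₀ (by positivity)]
    rw [div_le_iff₀ ha] at h2
    linarith
  refine ⟨a / (2 * M), max C1 1, by positivity, by positivity, ?_⟩
  intro w h hw hwh hhw t ht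
  have hw1 : 1 ≤ w := by omega
  have hw0 : (0:ℝ) < w := by exact_mod_cast hw1
  obtain ⟨W, hW⟩ : ∃ W : ℝ, W = (w:ℝ) ^ (3/4 : ℝ) := ⟨_, rfl⟩
  have hW0 : 0 < W := by rw [hW]; positivity
  have hW1 : 1 ≤ W := by
    rw [hW]; exact Real.one_le_rpow (by exact_mod_cast hw1) (by norm_num)
  have hv := hvar w h hw hwh hhw
  have hx0 : 0 ≤ Real.exp (-t) := (Real.exp_pos _).le
  have hx1 : Real.exp (-t) ≤ 1 := Real.exp_le_one_iff.mpr (by linarith)
  rw [← hW]
  constructor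
  · by_cases hbig : M / W ≤ 1
    · -- the window
      obtain ⟨t1, ht1⟩ : ∃ t1 : ℝ, t1 = M / W := ⟨_, rfl⟩
      have ht10 : 0 < t1 := by rw [ht1]; positivity
      have ht11 : t1 ≤ 1 := by rw [ht1]; exact hbig
      have h3 := hup w h hw1 hwh hhw t1 ht10
      rw [min_eq_right ht11, ← hW, show t1 * W = M by rw [ht1]; field_simp] at h3
      have h4 : a / 2 ≤ D2 w h (Real.exp (-t1)) := by
        unfold D2
        linarith
      by_cases htt : t ≤ t1
      · have h5 := D2_concave (h := h) hw1 ht.le htt ht10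
        have h6 : t / t1 * (a / 2) ≤ t / t1 * D2 w h (Real.exp (-t1)) :=
          mul_le_mul_of_nonneg_left h4 (by positivity)
        have h7 : t / t1 * (a / 2) = a / (2 * M) * (t * W) := by
          rw [ht1]; field_simp
        calc a / (2 * M) * min 1 (t * W) ≤ a / (2 * M) * (t * W) :=
              mul_le_mul_of_nonneg_left (min_le_right _ _) (by positivity)
          _ = t / t1 * (a / 2) := h7.symm
          _ ≤ _ := h6.trans h5
      · have h5 : Real.exp (-t) ≤ Real.exp (-t1) := Real.exp_le_exp.mpr (by linarith)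
        have h6 := V2_mono (w := w) (h := h) hx0 h5
        have h7 : D2 w h (Real.exp (-t1)) ≤ D2 w h (Real.exp (-t)) := by
          unfold D2; linarith
        have h8 : a / (2 * M) * min 1 (t * W) ≤ a / 2 := by
          calc a / (2 * M) * min 1 (t * W) ≤ a / (2 * M) * 1 :=
                mul_le_mul_of_nonneg_left (min_le_left _ _) (by positivity)
            _ ≤ a / 2 := by
                rw [mul_one]
                apply div_le_div_of_nonneg_left ha.le (by norm_num)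
                linarith
        linarith
    · -- bounded rectangles
      push Not at hbig
      rw [lt_div_iff₀ hW0, one_mul] at hbig
      have h3 := D2_lin (h := h) hw1 hx0 hx1
      have h4 := one_sub_exp ht.le
      have h5 : min 1 t / 2 * a ≤ (1 - Real.exp (-t)) * (hh (1/2) w h - (hh (1/2) w h) ^ 2) :=
        mul_le_mul h4 hv ha.le (by linarith)
      have h6 : min 1 (t * W) ≤ M * min 1 t := by
        rcases le_total 1 t with h7 | h7
        · rw [min_eq_left h7, mul_one]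
          exact (min_le_left _ _).trans hM1
        · rw [min_eq_right h7]
          refine (min_le_right _ _).trans ?_
          rw [mul_comm]
          exact mul_le_mul_of_nonneg_right hbig.le ht.le
      calc a / (2 * M) * min 1 (t * W) ≤ a / (2 * M) * (M * min 1 t) :=
            mul_le_mul_of_nonneg_left h6 (by positivity)
        _ = min 1 t / 2 * a := by field_simp
        _ ≤ _ := h5.trans h3
  · have h3 := hD w h hw1 hhw _ hx0 hx1
    rw [← hW] at h3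
    have h4 : 1 - Real.exp (-t) ≤ t := by
      have := Real.add_one_le_exp (-t)
      linarith
    have h5 : D2 w h (Real.exp (-t)) ≤ C1 * (t * W) := by
      refine h3.trans ?_
      calc C1 * (1 - Real.exp (-t)) * W ≤ C1 * t * W :=
            mul_le_mul_of_nonneg_right (mul_le_mul_of_nonneg_left h4 hC1.le) hW0.le
        _ = C1 * (t * W) := by ring
    have h6 : D2 w h (Real.exp (-t)) ≤ 1 := by
      have h7 := V2_ge (h := h) hw1 hx0
      have h8 : hh (1/2) w h ≤ 1 := hh_le_one (by norm_num) (by norm_num) w h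
      unfold D2
      nlinarith [sq_nonneg (hh (1/2) (w:ℤ) (h:ℤ))]
    rcases le_total 1 (t * W) with h7 | h7
    · rw [min_eq_left h7]
      calc D2 w h (Real.exp (-t)) ≤ 1 := h6
        _ ≤ max C1 1 * 1 := by rw [mul_one]; exact le_max_right _ _
    · rw [min_eq_right h7]
      exact h5.trans (mul_le_mul_of_nonneg_right (le_max_left _ _) (by positivity))

/-- The lower bound of the covariance. -/
theorem cov_low (K : ℕ) (hK : 1 ≤ K) : ∃ c C : ℝ, 0 < c ∧ 0 < C ∧ ∀ w h : ℕ, 2 ≤ w →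
    w ≤ K * h → h ≤ K * w → ∀ t : ℝ, 0 < t →
      c * Real.exp (-(C * (t * (w:ℝ) ^ (3/4 : ℝ)))) ≤
        V2 w h (Real.exp (-t)) - (hh (1/2) w h) ^ 2 := by
  obtain ⟨a, ha, ha1, hvar⟩ := var_low K hK
  obtain ⟨C1, hC1, hD⟩ := D2_up K
  obtain ⟨δ, hδ⟩ : ∃ δ : ℝ, δ = a / (2 * C1) := ⟨_, rfl⟩
  have hδ0 : 0 < δ := by rw [hδ]; positivity
  have hl2 : 0 < Real.log 2 := Real.log_pos (by norm_num)
  refine ⟨a / 2, Real.log 2 / δ, by positivity, by positivity, ?_⟩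
  intro w h hw hwh hhw t ht
  have hw1 : 1 ≤ w := by omega
  have hw0 : (0:ℝ) < w := by exact_mod_cast hw1
  obtain ⟨W, hW⟩ : ∃ W : ℝ, W = (w:ℝ) ^ (3/4 : ℝ) := ⟨_, rfl⟩
  have hW0 : 0 < W := by rw [hW]; positivity
  rw [← hW]
  obtain ⟨v, hv⟩ : ∃ v : ℝ, v = hh (1/2) w h - (hh (1/2) w h) ^ 2 := ⟨_, rfl⟩
  have hva : a ≤ v := by rw [hv]; exact hvar w h hw hwh hhw
  have hv0 : 0 < v := by linarith
  obtain ⟨t0, ht0⟩ : ∃ t0 : ℝ, t0 = δ / W := ⟨_, rfl⟩
  have ht00 : 0 < t0 := by rw [ht0]; positivity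
  -- the covariance at `t0`
  have h0 : v / 2 ≤ V2 w h (Real.exp (-t0)) - (hh (1/2) w h) ^ 2 := by
    have h1 := hD w h hw1 hhw _ (Real.exp_pos (-t0)).le
      (Real.exp_le_one_iff.mpr (by linarith))
    rw [← hW] at h1
    have h2 : 1 - Real.exp (-t0) ≤ t0 := by
      have := Real.add_one_le_exp (-t0)
      linarith
    have h3 : C1 * (1 - Real.exp (-t0)) * W ≤ a / 2 := by
      calc C1 * (1 - Real.exp (-t0)) * W ≤ C1 * t0 * W :=
            mul_le_mul_of_nonneg_right (mul_le_mul_of_nonneg_left h2 hC1.le) hW0.le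
        _ = a / 2 := by rw [ht0, hδ]; field_simp
    unfold D2 at h1
    linarith
  have hexp : Real.exp (-(Real.log 2 / δ * (t * W))) = (1/2 : ℝ) ^ (t / t0) := by
    rw [Real.rpow_def_of_pos (by norm_num)]
    congr 1
    rw [ht0, one_div, Real.log_inv]
    field_simp
  rw [hexp]
  rcases le_total t t0 with htt | htt
  · have h5 : Real.exp (-t0) ≤ Real.exp (-t) := Real.exp_le_exp.mpr (by linarith)
    have h6 := V2_mono (w := w) (h := h) (Real.exp_pos _).le h5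
    have h7 : (1/2 : ℝ) ^ (t / t0) ≤ 1 := Real.rpow_le_one (by norm_num) (by norm_num)
      (by positivity)
    nlinarith
  · -- convexity
    obtain ⟨S, hS⟩ : ∃ S : Finset Edg, S = RE 0 (w:ℤ) 0 h := ⟨_, rfl⟩
    obtain ⟨P, hP⟩ : ∃ P : Finset (Finset Edg), P = S.powerset.erase ∅ := ⟨_, rfl⟩
    have hm : (∅ : Finset Edg) ∈ S.powerset := Finset.mem_powerset.mpr (Finset.empty_subset _)
    have e0 : (wal S (fR w h) ∅) ^ 2 = (hh (1/2) w h) ^ 2 := by
      have h1 := V2_sum w h 0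
      rw [V2_zero hw1, ← hS, ← Finset.add_sum_erase _ _ hm, ← hP] at h1
      have h2 : ∑ T ∈ P, (wal S (fR w h) T) ^ 2 * (0:ℝ) ^ T.card = 0 := by
        refine Finset.sum_eq_zero (fun T hT => ?_)
        rw [hP, Finset.mem_erase] at hT
        have : T.card ≠ 0 := fun h => hT.1 (Finset.card_eq_zero.mp h)
        rw [zero_pow this, mul_zero]
      rw [h2, Finset.card_empty, pow_zero, mul_one, add_zero] at h1
      exact h1.symm
    have e1 : ∀ x : ℝ, V2 w h x - (hh (1/2) w h) ^ 2 =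
        ∑ T ∈ P, (wal S (fR w h) T) ^ 2 * x ^ T.card := by
      intro x
      rw [V2_sum, ← hS, ← Finset.add_sum_erase _ _ hm, ← hP, Finset.card_empty, pow_zero,
        mul_one, e0]
      ring
    have e2 : ∑ T ∈ P, (wal S (fR w h) T) ^ 2 = v := by
      have h1 := e1 1
      rw [V2_one hw1, ← hv] at h1
      rw [h1]
      exact Finset.sum_congr rfl (fun T _ => by rw [one_pow, mul_one])
    have e3 := Real.rpow_arith_mean_le_arith_mean_rpow P
      (fun T => (wal S (fR w h) T) ^ 2 / v) (fun T => (Real.exp (-t0)) ^ T.card)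
      (fun T _ => by positivity) (by rw [← Finset.sum_div, e2, div_self hv0.ne'])
      (fun T _ => by positivity) (p := t / t0) (by rw [one_le_div ht00]; exact htt)
    have e4 : ∑ T ∈ P, (wal S (fR w h) T) ^ 2 / v * (Real.exp (-t0)) ^ T.card =
        (V2 w h (Real.exp (-t0)) - (hh (1/2) w h) ^ 2) / v := by
      rw [e1, Finset.sum_div]
      exact Finset.sum_congr rfl (fun T _ => by ring)
    have e5 : ∑ T ∈ P, (wal S (fR w h) T) ^ 2 / v * ((Real.exp (-t0)) ^ T.card) ^ (t / t0) =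
        (V2 w h (Real.exp (-t)) - (hh (1/2) w h) ^ 2) / v := by
      rw [e1, Finset.sum_div]
      refine Finset.sum_congr rfl (fun T _ => ?_)
      have e6 : ((Real.exp (-t0)) ^ T.card) ^ (t / t0) = (Real.exp (-t)) ^ T.card := by
        rw [← Real.exp_nat_mul, ← Real.exp_nat_mul, ← Real.exp_mul]
        congr 1
        field_simp
      rw [e6]
      ring
    rw [e4, e5] at e3
    have h8 : (1/2 : ℝ) ≤ (V2 w h (Real.exp (-t0)) - (hh (1/2) w h) ^ 2) / v := by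
      rw [le_div_iff₀ hv0]
      linarith
    have h9 : (1/2 : ℝ) ^ (t / t0) ≤ (V2 w h (Real.exp (-t)) - (hh (1/2) w h) ^ 2) / v :=
      (Real.rpow_le_rpow (by norm_num) h8 (by positivity)).trans e3
    rw [le_div_iff₀ hv0] at h9
    have h10 : (0:ℝ) ≤ (1/2 : ℝ) ^ (t / t0) := by positivity
    nlinarith

end Pool.Agent.Y197.NW
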