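import Pool.Agent.H389R2.NS.NoiseS
import Pool.Agent.H389R2.NS.Pair4
import Pool.Agent.H389R2.NS.SumSp
import Pool.Agent.H389R2.NS.SS
import Pool.Agent.H389R2.NS.FewBase

/-! Spectral mass of the sets which hit a block (abstract part). -/

set_option autoImplicit false

namespace Pool.Agent.Y197.NW

open H389NS H974 H12S Finset

variable {E : Type*} [DecidableEq E]

theorem E2_sp {S V : Finset E} (hV : V ⊆ S) (f : Finset E → ℝ) (ρ : E → ℝ) :
    E2 (fun e => if e ∈ V then ρ e else 1) S (fun F F' => f F * f F') =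
      ∑ T ∈ V.powerset, sp hp S V f T * ∏ e ∈ T, ρ e := by
  have h1 : S = (S \ V) ∪ V := by rw [Finset.sdiff_union_of_subset hV]
  have hd : Disjoint (S \ V) V := Finset.sdiff_disjoint
  conv_lhs => rw [h1]
  rw [E2_union907 _ hd, E2_one907 (fun e he => by
    rw [if_neg (Finset.mem_sdiff.mp he).2])]
  have e1 : ∀ G : Finset E, E2 (fun e => if e ∈ V then ρ e else 1) V
      (fun B B' => f (G ∪ B) * f (G ∪ B')) =
      ∑ T ∈ V.powerset, (wal V (fun Y => f (G ∪ Y)) T) ^ 2 * ∏ e ∈ T, ρ e := by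
    intro G
    rw [E2_wal _ V (fun Y => f (G ∪ Y)) (fun Y => f (G ∪ Y))]
    apply Finset.sum_congr rfl
    intro T hT
    have hT := Finset.mem_powerset.mp hT
    have e2 : (∏ e ∈ T, (if e ∈ V then ρ e else 1)) = ∏ e ∈ T, ρ e :=
      Finset.prod_congr rfl (fun e he => if_pos (hT he))
    rw [e2]
    ring
  simp_rw [e1]
  rw [Ex_sum]
  apply Finset.sum_congr rfl
  intro T _
  unfold sp
  rw [Ex_mul_right]

/-- The mass which is lost when the edges of `B` become independent. -/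
noncomputable def HH (S V B : Finset E) (f : Finset E → ℝ) (x : ℝ) : ℝ :=
  E2 (fun e => if e ∈ V then x else 1) S (fun F F' => f F * f F') -
    E2 (fun e => if e ∈ V then (if e ∈ B then 0 else x) else 1) S (fun F F' => f F * f F')

theorem prod_kill {B T : Finset E} {x : ℝ} (h : ¬ Disjoint T B) :
    ∏ e ∈ T, (if e ∈ B then (0:ℝ) else x) = 0 := by
  rw [Finset.not_disjoint_iff] at h
  obtain ⟨a, h1, h2⟩ := h
  exact Finset.prod_eq_zero h1 (if_pos h2)

theorem prod_keep {B T : Finset E} {x : ℝ} (h : Disjoint T B) :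
    ∏ e ∈ T, (if e ∈ B then (0:ℝ) else x) = x ^ T.card := by
  rw [Finset.prod_congr rfl (fun e he => if_neg (Finset.disjoint_left.mp h he)),
    Finset.prod_const]

theorem HH_eq {S V : Finset E} (B : Finset E) (hV : V ⊆ S) (f : Finset E → ℝ) (x : ℝ) :
    HH S V B f x =
      ∑ T ∈ V.powerset.filter (fun T => ¬ Disjoint T B), sp hp S V f T * x ^ T.card := by
  unfold HH
  rw [E2_sp hV f (fun _ => x), E2_sp hV f (fun e => if e ∈ B then 0 else x),
    ← Finset.sum_sub_distrib, Finset.sum_filter]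
  apply Finset.sum_congr rfl
  intro T _
  rw [Finset.prod_const]
  by_cases h : Disjoint T B
  · rw [if_neg (not_not.mpr h), prod_keep h]; ring
  · rw [if_pos h, prod_kill h]; ring

/-- The same in terms of the full expansion. -/
theorem HH_wal {S V B : Finset E} (hB : B ⊆ V) (f : Finset E → ℝ) (x : ℝ) :
    HH S V B f x = ∑ T ∈ S.powerset.filter (fun T => ¬ Disjoint T B),
      (wal S f T) ^ 2 * ∏ e ∈ T, (if e ∈ V then x else 1) := by
  unfold HH
  rw [E2_wal _ S f f, E2_wal _ S f f, ← Finset.sum_sub_distrib, Finset.sum_filter]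
  apply Finset.sum_congr rfl
  intro T _
  by_cases h : Disjoint T B
  · rw [if_neg (not_not.mpr h)]
    have e : ∏ e ∈ T, (if e ∈ V then (if e ∈ B then (0:ℝ) else x) else 1) =
        ∏ e ∈ T, (if e ∈ V then x else 1) := by
      refine Finset.prod_congr rfl (fun e he => ?_)
      rw [if_neg (Finset.disjoint_left.mp h he)]
    rw [e]; ring
  · rw [if_pos h]
    have e : ∏ e ∈ T, (if e ∈ V then (if e ∈ B then (0:ℝ) else x) else 1) = 0 := by
      rw [Finset.not_disjoint_iff] at h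
      obtain ⟨a, h1, h2⟩ := h
      refine Finset.prod_eq_zero h1 ?_
      rw [if_pos (hB h2), if_pos h2]
    rw [e]; ring

theorem HH_mono {S V B : Finset E} (hB : B ⊆ V) (hV : V ⊆ S) (f : Finset E → ℝ) {x : ℝ}
    (h0 : 0 ≤ x) (h1 : x ≤ 1) : HH S S B f x ≤ HH S V B f x := by
  rw [HH_wal (hB.trans hV), HH_wal hB]
  refine Finset.sum_le_sum (fun T _ => mul_le_mul_of_nonneg_left ?_ (sq_nonneg _))
  refine Finset.prod_le_prod (fun e _ => ?_) (fun e _ => ?_)
  · split_ifs <;> linarith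
  · by_cases a : e ∈ V
    · rw [if_pos (hV a), if_pos a]
    · rw [if_neg a]
      split_ifs <;> linarith

/-- `sp` for the whole set. -/
theorem sp_full (S : Finset E) (f : Finset E → ℝ) (T : Finset E) :
    sp hp S S f T = (wal S f T) ^ 2 := by
  unfold sp
  rw [Finset.sdiff_self, Ex_empty]
  simp only [Finset.empty_union]

theorem UU_full {S W : Finset E} (hW : W ⊆ S) (f : Finset E → ℝ) :
    UU hp S W f = ∑ T ∈ (S \ W).powerset, (wal S f T) ^ 2 := by
  rw [← sum_sp (p := hp) (S := S) (V := S) (W := W) (Finset.Subset.refl _) (fun _ _ => rfl) hW f]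
  exact Finset.sum_congr rfl (fun T _ => sp_full S f T)

/-- The two-layer mass: the sets which avoid `W`, and the sets which hit a block of a cover. -/
theorem V_le {ι : Type*} {S W : Finset E} (hW : W ⊆ S) (I : Finset ι) (B : ι → Finset E)
    (hB : ∀ i ∈ I, B i ⊆ S) (hc : ∀ e ∈ W, ∃ i ∈ I, e ∈ B i) (f : Finset E → ℝ) {x : ℝ}
    (h0 : 0 ≤ x) (h1 : x ≤ 1) :
    E2 (fun _ => x) S (fun F F' => f F * f F') ≤
      UU hp S W f + ∑ i ∈ I, HH S S (B i) f x := by
  classical
  rw [E2_wal _ S f f, UU_full hW]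
  have e1 : ∀ i ∈ I, HH S S (B i) f x =
      ∑ T ∈ (S.powerset.filter (fun T => ¬ Disjoint T W)).filter (fun T => ¬ Disjoint T (B i)),
        (wal S f T) ^ 2 * x ^ T.card +
      ∑ T ∈ (S.powerset.filter (fun T => Disjoint T W)).filter (fun T => ¬ Disjoint T (B i)),
        (wal S f T) ^ 2 * x ^ T.card := by
    intro i hi
    rw [HH_wal (hB i hi), Finset.filter_filter, Finset.filter_filter]
    have e2 : ∀ T ∈ S.powerset.filter (fun T => ¬ Disjoint T (B i)),
        (wal S f T) ^ 2 * ∏ e ∈ T, (if e ∈ S then x else 1) = (wal S f T) ^ 2 * x ^ T.card := by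
      intro T hT
      have hTS := Finset.mem_powerset.mp (Finset.mem_filter.mp hT).1
      rw [Finset.prod_congr rfl (fun e he => if_pos (hTS he)), Finset.prod_const]
    rw [Finset.sum_congr rfl e2, Finset.sum_filter, Finset.sum_filter, Finset.sum_filter,
      ← Finset.sum_add_distrib]
    refine Finset.sum_congr rfl (fun T _ => ?_)
    by_cases a : Disjoint T W <;> by_cases b : Disjoint T (B i) <;> simp [a, b]
  have hnn : ∀ T, 0 ≤ (wal S f T) ^ 2 * x ^ T.card := fun T =>
    mul_nonneg (sq_nonneg _) (pow_nonneg h0 _)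
  have e3 : ∑ T ∈ S.powerset, wal S f T * wal S f T * ∏ e ∈ T, x =
      ∑ T ∈ S.powerset.filter (fun T => Disjoint T W), (wal S f T) ^ 2 * x ^ T.card +
      ∑ T ∈ S.powerset.filter (fun T => ¬ Disjoint T W), (wal S f T) ^ 2 * x ^ T.card := by
    rw [Finset.sum_filter_add_sum_filter_not]
    refine Finset.sum_congr rfl (fun T _ => ?_)
    rw [Finset.prod_const]; ring
  rw [e3]
  refine add_le_add ?_ ?_
  · have e4 : S.powerset.filter (fun T => Disjoint T W) = (S \ W).powerset := by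
      ext T
      rw [Finset.mem_filter, Finset.mem_powerset, Finset.mem_powerset, Finset.subset_sdiff]
    rw [e4]
    exact Finset.sum_le_sum (fun T _ => mul_le_of_le_one_right (sq_nonneg _)
      (pow_le_one₀ h0 h1))
  · refine (P8aux.cover_sum (S.powerset.filter (fun T => ¬ Disjoint T W)) I
      (fun i T => ¬ Disjoint T (B i)) (fun T => (wal S f T) ^ 2 * x ^ T.card)
      (fun T _ => hnn T) ?_).trans (Finset.sum_le_sum (fun i hi => ?_))
    · intro T hT
      obtain ⟨a, h2, h3⟩ := Finset.not_disjoint_iff.mp (Finset.mem_filter.mp hT).2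
      obtain ⟨i, hi, hi2⟩ := hc a h3
      exact ⟨i, hi, Finset.not_disjoint_iff.mpr ⟨a, h2, hi2⟩⟩
    · rw [e1 i hi]
      have : 0 ≤ ∑ T ∈ (S.powerset.filter (fun T => Disjoint T W)).filter
          (fun T => ¬ Disjoint T (B i)), (wal S f T) ^ 2 * x ^ T.card :=
        Finset.sum_nonneg (fun T _ => hnn T)
      linarith

theorem E2_hp_union {S W : Finset E} (hW : W ⊆ S) (f : Finset E → ℝ) :
    Ex hp S f = Ex hp (S \ W) (fun G => Ex hp W (fun Y => f (G ∪ Y))) := Ex_split hW f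

/-- The mass outside of `W` is at most the squared distance to a function of the edges of `W`. -/
theorem UU_var {S W : Finset E} (hW : W ⊆ S) (f g : Finset E → ℝ)
    (hg : ∀ G Y, G ⊆ S \ W → Y ⊆ W → g (G ∪ Y) = g Y) :
    UU hp S W f - (Ex hp S f) ^ 2 ≤ Ex hp S (fun F => (f F - g F) ^ 2) := by
  obtain ⟨m, hm⟩ : ∃ m : ℝ, m = Ex hp W g := ⟨_, rfl⟩
  obtain ⟨u, hu⟩ : ∃ u : ℝ, u = Ex hp S f := ⟨_, rfl⟩
  have hok : Ok (hp : E → ℝ) := SSx.hp_ok
  have e1 : Ex hp (S \ W) (fun G => (Ex hp W (fun Y => f (G ∪ Y)) - m) ^ 2) =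
      UU hp S W f - 2 * m * u + m ^ 2 := by
    have h1 : ∀ G, (Ex hp W (fun Y => f (G ∪ Y)) - m) ^ 2 =
        ((Ex hp W (fun Y => f (G ∪ Y))) ^ 2 - (2 * m) * Ex hp W (fun Y => f (G ∪ Y))) + m ^ 2 := by
      intro G; ring
    rw [Ex_congr (fun G _ => h1 G), Ex_add, Ex_const, Ex_sub, Ex_mul_left, ← Ex_split hW, ← hu]
    rfl
  have e2 : Ex hp (S \ W) (fun G => (Ex hp W (fun Y => f (G ∪ Y)) - m) ^ 2) ≤
      Ex hp S (fun F => (f F - g F) ^ 2) := by
    rw [Ex_split hW (fun F => (f F - g F) ^ 2)]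
    refine Ex_mono hok (fun G hG => ?_)
    have h2 : Ex hp W (fun Y => f (G ∪ Y)) - m = Ex hp W (fun Y => f (G ∪ Y) - g (G ∪ Y)) := by
      rw [Ex_sub, hm]
      congr 1
      exact Ex_congr (fun Y hY => (hg G Y hG hY).symm)
    rw [h2]
    exact SSx.sq_Ex_le W _
  rw [e1] at e2
  rw [← hu]
  nlinarith [sq_nonneg (m - u)]

end Pool.Agent.Y197.NW
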