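import Pool.Agent.Y197.NW.Rect2
import Pool.Agent.TH291.NW.Rct
import Pool.Agent.H389R2.NS.Pair2

/-! Both directions of the noise sensitivity of the crossing of a rectangle. -/

set_option autoImplicit false

namespace Pool.Agent.Y197.NW

open H389NS H974 H12S Finset

section Abstract

variable {E : Type*} [DecidableEq E]

theorem E2_union_hp (x : ℝ) (S : Finset E) (g : Finset E → ℝ) :
    E2 (fun _ => x) S (fun F F' => g (F ∪ F')) = Ex (fun _ => (3 - x) / 4) S g := by
  induction S using Finset.induction_on generalizing g with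
  | empty => rw [A6_empty, Ex_empty, Finset.empty_union]
  | insert a S ha ih =>
    rw [A6_insert _ ha, Ex_insert _ ha]
    have key := ih (fun G => g (insert a G))
    have e1 : E2 (fun _ => x) S (fun F F' => g (insert a F ∪ insert a F')) =
        Ex (fun _ => (3 - x) / 4) S (fun G => g (insert a G)) := by
      rw [← key]
      congr 1
      funext F F'
      show g _ = g _
      congr 1
      ext z
      simp only [Finset.mem_union, Finset.mem_insert]
      tauto
    have e2 : E2 (fun _ => x) S (fun F F' => g (insert a F ∪ F')) =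
        Ex (fun _ => (3 - x) / 4) S (fun G => g (insert a G)) := by
      rw [← key]
      congr 1
      funext F F'
      show g _ = g _
      congr 1
      ext z
      simp only [Finset.mem_union, Finset.mem_insert]
      tauto
    have e3 : E2 (fun _ => x) S (fun F F' => g (F ∪ insert a F')) =
        Ex (fun _ => (3 - x) / 4) S (fun G => g (insert a G)) := by
      rw [← key]
      congr 1
      funext F F'
      show g _ = g _
      congr 1
      ext z
      simp only [Finset.mem_union, Finset.mem_insert]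
      tauto
    rw [e1, e2, e3, ih g]
    ring

theorem E2_inter_hp (x : ℝ) (S : Finset E) (g : Finset E → ℝ) :
    E2 (fun _ => x) S (fun F F' => g (F ∩ F')) = Ex (fun _ => (1 + x) / 4) S g := by
  induction S using Finset.induction_on generalizing g with
  | empty => rw [A6_empty, Ex_empty, Finset.empty_inter]
  | insert a S ha ih =>
    rw [A6_insert _ ha, Ex_insert _ ha]
    have key := ih (fun G => g (insert a G))
    have e1 : E2 (fun _ => x) S (fun F F' => g (insert a F ∩ insert a F')) =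
        Ex (fun _ => (1 + x) / 4) S (fun G => g (insert a G)) := by
      rw [← key]
      congr 1
      funext F F'
      show g _ = g _
      congr 1
      ext z
      simp only [Finset.mem_inter, Finset.mem_insert]
      tauto
    have e2 : E2 (fun _ => x) S (fun F F' => g (insert a F ∩ F')) =
        E2 (fun _ => x) S (fun F F' => g (F ∩ F')) := by
      refine E2_congr907 (fun F F' _ hF' => ?_)
      congr 1
      ext z
      simp only [Finset.mem_inter, Finset.mem_insert]
      constructor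
      · rintro ⟨rfl | h, h'⟩
        · exact absurd (hF' h') ha
        · exact ⟨h, h'⟩
      · rintro ⟨h, h'⟩
        exact ⟨Or.inr h, h'⟩
    have e3 : E2 (fun _ => x) S (fun F F' => g (F ∩ insert a F')) =
        E2 (fun _ => x) S (fun F F' => g (F ∩ F')) := by
      refine E2_congr907 (fun F F' hF _ => ?_)
      congr 1
      ext z
      simp only [Finset.mem_inter, Finset.mem_insert]
      constructor
      · rintro ⟨h, rfl | h'⟩
        · exact absurd (hF h) ha
        · exact ⟨h, h'⟩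
      · rintro ⟨h, h'⟩
        exact ⟨h, Or.inr h'⟩
    rw [e1, e2, e3, ih g]
    ring

theorem E2_sub (ρ : E → ℝ) (S : Finset E) (h h' : Finset E → Finset E → ℝ) :
    E2 ρ S (fun F F' => h F F' - h' F F') = E2 ρ S h - E2 ρ S h' := by
  have e1 : E2 ρ S (fun F F' => h F F' - h' F F') =
      E2 ρ S (fun F F' => h F F' + (-1) * h' F F') := by
    congr 1; funext F F'; ring
  rw [e1, A6_add, A7.E2_mul_left]
  ring

/-- The probability that the event holds in the first layer only. -/
theorem P2_not (x : ℝ) (S : Finset E) (A : Finset E → Prop) :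
    P2 (fun _ => x) S A (fun F => ¬ A F) = Pr hp S A - P2 (fun _ => x) S A A := by
  have e : P2 (fun _ => x) S A (fun F => ¬ A F) =
      E2 (fun _ => x) S (fun F F' => ind (A F) - ind (A F) * ind (A F')) := by
    unfold P2
    congr 1
    funext F F'
    by_cases h : A F'
    · rw [ind_of h, ind_not_of (show ¬ ¬ A F' from not_not.mpr h)]; ring
    · rw [ind_not_of h, ind_of (show ¬ A F' from h)]; ring
  rw [e, E2_sub, A6_left]
  rfl

/-- Monotone coupling of the two layers. -/
theorem P2_not_le {x : ℝ} (h0 : 0 ≤ x) (h1 : x ≤ 1) {S : Finset E} {A : Finset E → Prop}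
    (hA : ∀ F G : Finset E, F ⊆ G → A F → A G) :
    2 * P2 (fun _ => x) S A (fun F => ¬ A F) ≤
      Pr (fun _ => (3 - x) / 4) S A - Pr (fun _ => (1 + x) / 4) S A := by
  have e1 : 2 * P2 (fun _ => x) S A (fun F => ¬ A F) =
      E2 (fun _ => x) S (fun F F' => ind (A F) * ind (¬ A F') + ind (¬ A F) * ind (A F')) := by
    rw [A6_add, two_mul]
    congr 1
    exact P2_comm _ _ _ _
  unfold Pr
  rw [e1, ← E2_union_hp, ← E2_inter_hp, ← E2_sub]
  refine E2_mono (fun _ _ => ⟨h0, h1⟩) (fun F F' _ _ => ?_)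
  by_cases a : A F
  · have hu : A (F ∪ F') := hA _ _ Finset.subset_union_left a
    by_cases b : A F'
    · rw [ind_of a, ind_of b, ind_not_of (not_not.mpr a), ind_not_of (not_not.mpr b), ind_of hu]
      have := ind_le_one (A (F ∩ F'))
      linarith
    · have hn : ¬ A (F ∩ F') := fun h => b (hA _ _ Finset.inter_subset_right h)
      rw [ind_of a, ind_not_of b, ind_not_of (not_not.mpr a), ind_of (show ¬ A F' from b),
        ind_of hu, ind_not_of hn]
      norm_num
  · have hn : ¬ A (F ∩ F') := fun h => a (hA _ _ Finset.inter_subset_left h)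
    by_cases b : A F'
    · have hu : A (F ∪ F') := hA _ _ Finset.subset_union_right b
      rw [ind_not_of a, ind_of b, ind_of (show ¬ A F from a), ind_of hu, ind_not_of hn]
      norm_num
    · rw [ind_not_of a, ind_not_of b, ind_not_of hn]
      have := ind_nonneg (A (F ∪ F'))
      linarith

end Abstract

theorem Cr_mono (w h : ℕ) (F G : Finset Edg) (hFG : F ⊆ G) (hF : Cr w h F) : Cr w h G :=
  Cn_mono (Finset.coe_subset.mpr hFG) hF

theorem Pr_Cr (q : ℝ) {w h : ℕ} (hw : 1 ≤ w) :
    Pr (fun _ => q) (RE 0 w 0 h) (Cr w h) = hh q w h := by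
  have e : Pr (fun _ => q) (RE 0 w 0 h) (Cr w h) =
      Pr (fun _ => q) (RE 0 (w:ℤ) 0 h) (LRc 0 w 0 h) := Pr_congr (fun F hF => Cr_iff hw hF)
  rw [e, pr_LRc q LRE_subset_RE, sub_zero, sub_zero]

/-- The probability that exactly the first layer is crossed. -/
noncomputable def D2 (w h : ℕ) (x : ℝ) : ℝ := hh (1/2) w h - V2 w h x

theorem D2_eq {w h : ℕ} (hw : 1 ≤ w) (x : ℝ) :
    P2 (fun _ => x) (RE 0 w 0 h) (Cr w h) (fun F => ¬ Cr w h F) = D2 w h x := by
  rw [P2_not, Pr_half, Pr_Cr (1/2) hw]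
  rfl

/-- Stability. -/
theorem D2_up (K : ℕ) : ∃ C : ℝ, 0 < C ∧ ∀ w h : ℕ, 1 ≤ w → h ≤ K * w → ∀ x : ℝ, 0 ≤ x →
    x ≤ 1 → D2 w h x ≤ C * (1 - x) * (w:ℝ) ^ (3/4 : ℝ) := by
  obtain ⟨C, hC, hup⟩ := TH291.NW.cross_up K
  refine ⟨C / 4, by positivity, ?_⟩
  intro w h hw hhw x h0 h1
  have e := P2_not_le h0 h1 (S := RE 0 (w:ℤ) 0 h) (Cr_mono w h)
  rw [D2_eq hw, Pr_Cr _ hw, Pr_Cr _ hw] at e
  have a1 := hup w h hw hhw ((3 - x) / 4) (by linarith) (by linarith)
  have a2 := hup w h hw hhw ((1 + x) / 4) (by linarith) (by linarith)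
  rw [abs_le] at a1 a2
  have b1 : |(3 - x) / 4 - 1 / 2| = (1 - x) / 4 := by
    rw [abs_of_nonneg (by linarith)]; ring
  have b2 : |(1 + x) / 4 - 1 / 2| = (1 - x) / 4 := by
    rw [abs_of_nonpos (by linarith)]; ring
  rw [b1] at a1
  rw [b2] at a2
  have e3 : C / 4 * (1 - x) * (w:ℝ) ^ (3/4 : ℝ) = C * ((1 - x) / 4) * (w:ℝ) ^ (3/4 : ℝ) := by ring
  rw [e3]
  linarith [a1.2, a2.1]

/-- The spectral expansion. -/
theorem V2_sum (w h : ℕ) (x : ℝ) : V2 w h x =
    ∑ T ∈ (RE 0 (w:ℤ) 0 h).powerset, (wal (RE 0 (w:ℤ) 0 h) (fR w h) T) ^ 2 * x ^ T.card := by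
  rw [V2_eq, E2_wal]
  refine Finset.sum_congr rfl (fun T _ => ?_)
  rw [Finset.prod_const]; ring

theorem V2_mono {w h : ℕ} {x y : ℝ} (h0 : 0 ≤ x) (hxy : x ≤ y) : V2 w h x ≤ V2 w h y := by
  rw [V2_sum, V2_sum]
  exact Finset.sum_le_sum (fun T _ => mul_le_mul_of_nonneg_left (pow_le_pow_left₀ h0 hxy _)
    (sq_nonneg _))

theorem V2_one {w h : ℕ} (hw : 1 ≤ w) : V2 w h 1 = hh (1/2) w h := by
  unfold V2 P2
  rw [E2_one907 (fun _ _ => rfl)]
  rw [← Pr_Cr (1/2) hw, ← Pr_half]
  unfold Pr
  refine Ex_congr (fun F _ => ?_)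
  by_cases h : Cr w h F
  · rw [ind_of h]; ring
  · rw [ind_not_of h]; ring

theorem V2_zero {w h : ℕ} (hw : 1 ≤ w) : V2 w h 0 = (hh (1/2) w h) ^ 2 := by
  rw [V2_sum, ← Ex_fR hw, ← Finset.sum_subset (Finset.singleton_subset_iff.mpr
    (Finset.empty_mem_powerset _))]
  · rw [Finset.sum_singleton, Finset.card_empty, pow_zero, mul_one]
    congr 1
    unfold wal
    refine Ex_congr (fun F _ => ?_)
    simp [chi]
  · intro T _ hT
    rw [Finset.mem_singleton] at hT
    have : T.card ≠ 0 := by rw [Ne, Finset.card_eq_zero]; exact hT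
    rw [zero_pow this, mul_zero]

/-- Concavity in the time. -/
theorem D2_concave {w h : ℕ} (hw : 1 ≤ w) {t t1 : ℝ} (h0 : 0 ≤ t) (h1 : t ≤ t1) (h2 : 0 < t1) :
    t / t1 * D2 w h (Real.exp (-t1)) ≤ D2 w h (Real.exp (-t)) := by
  unfold D2
  rw [← V2_one hw, V2_sum, V2_sum, V2_sum, ← Finset.sum_sub_distrib, ← Finset.sum_sub_distrib,
    Finset.mul_sum]
  refine Finset.sum_le_sum (fun T _ => ?_)
  rw [one_pow, ← Real.exp_nat_mul, ← Real.exp_nat_mul]
  obtain ⟨k, hk⟩ : ∃ k : ℝ, k = (T.card : ℝ) := ⟨_, rfl⟩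
  rw [← hk]
  obtain ⟨l, hl⟩ : ∃ l : ℝ, l = t / t1 := ⟨_, rfl⟩
  have hl0 : 0 ≤ l := by rw [hl]; positivity
  have hl1 : l ≤ 1 := by rw [hl, div_le_one h2]; exact h1
  have hc := convexOn_exp.2 (Set.mem_univ (k * -t1)) (Set.mem_univ (0:ℝ)) hl0
    (sub_nonneg.mpr hl1) (by ring)
  rw [smul_eq_mul, smul_eq_mul, smul_eq_mul, smul_eq_mul, Real.exp_zero, mul_zero, add_zero,
    mul_one] at hc
  have e1 : l * (k * -t1) = k * -t := by rw [hl]; field_simp
  rw [e1] at hc
  rw [← hl]
  have hsq := sq_nonneg (wal (RE 0 (w:ℤ) 0 h) (fR w h) T)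
  nlinarith

end Pool.Agent.Y197.NW
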