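import Pool.Agent.Y197.NW.Core

/-! Noise sensitivity with the exact window. -/

set_option autoImplicit false

namespace Pool.Agent.Y197.NW

open H389NS H974 H12S Finset

/-- Noise sensitivity at the scale `r` of the noise, in a domain of scale `n`. -/
theorem ns_ratio : ∃ (C c κ : ℝ) (r0 : ℕ), 0 < C ∧ 0 < c ∧ 0 < κ ∧ 1 ≤ r0 ∧
    1 ≤ κ * (r0:ℝ) ^ (3/4 : ℝ) ∧ ∀ n r : ℕ, r0 ≤ r → r ≤ n →
    ∀ (p : Edg → ℝ) (S : Finset Edg) (I J I' J' : Set Vtx), DomN p S I J I' J' n →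
    ∀ x : ℝ, 0 ≤ x → x ≤ 1 - 1 / (κ * (r:ℝ) ^ (3/4 : ℝ)) →
      ∑ T ∈ (boxE n).powerset.filter (fun T => ¬ Disjoint T (boxE (n / 2))),
        sp p S (boxE n) (fC I J) T * x ^ T.card ≤ C * ((r:ℝ) / n) ^ c := by
  classical
  obtain ⟨Cf, cf, hCf, hcf, hfew⟩ := few_cells
  obtain ⟨ε, hεdef⟩ : ∃ ε : ℝ, ε = min (1 / 100) (cf / 100) := ⟨_, rfl⟩
  have hε : 0 < ε := by rw [hεdef]; exact lt_min (by norm_num) (by positivity)
  have hε1 : ε ≤ 1 / 100 := by rw [hεdef]; exact min_le_left _ _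
  have hε2 : 100 * ε ≤ cf := by
    have : ε ≤ cf / 100 := by rw [hεdef]; exact min_le_right _ _
    linarith
  obtain ⟨A, q0, c2, c3, hA, hq0, hc2, hc3, hc31, hqs⟩ := q_scale ε hε
  have hA1 : (1 : ℝ) ≤ A := by exact_mod_cast hA
  obtain ⟨κ, hκ⟩ : ∃ κ : ℝ, κ = c2 * (A:ℝ) ^ (3/4 : ℝ) := ⟨_, rfl⟩
  have hκ0 : 0 < κ := by rw [hκ]; positivity
  obtain ⟨r1, hr1⟩ : ∃ r1 : ℕ, r1 = ⌈(1 / κ) ^ (4/3 : ℝ)⌉₊ := ⟨_, rfl⟩
  obtain ⟨r0, hr0⟩ : ∃ r0 : ℕ, r0 = max q0 (max r1 1) := ⟨_, rfl⟩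
  have hr0q : q0 ≤ r0 := by rw [hr0]; exact le_max_left _ _
  have hr0r : r1 ≤ r0 := by rw [hr0]; exact (le_max_left _ _).trans (le_max_right _ _)
  have hr01 : 1 ≤ r0 := by rw [hr0]; exact (le_max_right _ _).trans (le_max_right _ _)
  have hκr0 : 1 ≤ κ * (r0:ℝ) ^ (3/4 : ℝ) := by
    have h1 : (1 / κ) ^ (4/3 : ℝ) ≤ (r0:ℝ) := by
      calc (1 / κ) ^ (4/3 : ℝ) ≤ (r1:ℝ) := by rw [hr1]; exact Nat.le_ceil _
        _ ≤ r0 := by exact_mod_cast hr0r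
    have h2 := Real.rpow_le_rpow (by positivity) h1 (show (0:ℝ) ≤ 3/4 by norm_num)
    rw [← Real.rpow_mul (by positivity)] at h2
    norm_num at h2
    calc (1:ℝ) = κ * κ⁻¹ := (mul_inv_cancel₀ hκ0.ne').symm
      _ ≤ κ * (r0:ℝ) ^ (3/4 : ℝ) := mul_le_mul_of_nonneg_left h2 hκ0.le
  obtain ⟨L0, hL0d⟩ : ∃ L0 : ℝ, L0 = (176 * (A:ℝ)) ^ (2:ℕ) := ⟨_, rfl⟩
  have hL01 : 1 ≤ L0 := by
    rw [hL0d]; apply one_le_pow₀; linarith
  obtain ⟨C1, hC1⟩ : ∃ C1 : ℝ, C1 = Cf * 242 ^ 3 * (3872 * (A : ℝ)) ^ cf := ⟨_, rfl⟩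
  have hC1p : 0 < C1 := by rw [hC1]; positivity
  refine ⟨L0 ^ ε + C1 + 1331 / c3, ε, κ, r0, by positivity, hε, hκ0, hr01, hκr0, ?_⟩
  intro n r hr hrn p S I J I' J' D x hx0 hx1
  have hsp0 : ∀ T, 0 ≤ sp p S (boxE n) (fC I J) T := fun T => sp_nonneg D.ok _ _ _ _
  have hr1' : 1 ≤ r := hr01.trans hr
  have hn : 1 ≤ n := hr1'.trans hrn
  have hrr : (1:ℝ) ≤ r := by exact_mod_cast hr1'
  have hnr : (1:ℝ) ≤ n := by exact_mod_cast hn
  obtain ⟨L, hL⟩ : ∃ L : ℝ, L = (n : ℝ) / r := ⟨_, rfl⟩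
  have hL1 : 1 ≤ L := by
    rw [hL, le_div_iff₀ (by linarith), one_mul]
    exact_mod_cast hrn
  have hL0 : 0 < L := by linarith
  have hnL : (n:ℝ) = L * r := by rw [hL]; field_simp
  have hLε : 0 < L ^ (-ε) := Real.rpow_pos_of_pos hL0 _
  have hrL : ((r:ℝ) / n) ^ ε = L ^ (-ε) := by
    rw [Real.rpow_neg hL0.le, ← Real.inv_rpow hL0.le, hL, inv_div]
  rw [hrL]
  have hK1 : 1 ≤ κ * (r:ℝ) ^ (3/4 : ℝ) := by
    refine hκr0.trans (mul_le_mul_of_nonneg_left ?_ hκ0.le)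
    exact Real.rpow_le_rpow (by positivity) (by exact_mod_cast hr) (by norm_num)
  have hx1' : x ≤ 1 := by
    have : 0 ≤ 1 / (κ * (r:ℝ) ^ (3/4 : ℝ)) := by positivity
    linarith
  by_cases hbig : L < L0
  · -- comparable scales
    have h1 : ∑ T ∈ (boxE n).powerset.filter (fun T => ¬ Disjoint T (boxE (n / 2))),
        sp p S (boxE n) (fC I J) T * x ^ T.card ≤ 1 := by
      have e1 : ∑ T ∈ (boxE n).powerset.filter (fun T => ¬ Disjoint T (boxE (n / 2))),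
          sp p S (boxE n) (fC I J) T * x ^ T.card ≤
          ∑ T ∈ (boxE n).powerset.filter (fun T => ¬ Disjoint T (boxE (n / 2))),
          sp p S (boxE n) (fC I J) T :=
        Finset.sum_le_sum (fun T _ => mul_le_of_le_one_right (hsp0 T) (pow_le_one₀ hx0 hx1'))
      have e2 : ∑ T ∈ (boxE n).powerset.filter (fun T => ¬ Disjoint T (boxE (n / 2))),
          sp p S (boxE n) (fC I J) T ≤ ∑ T ∈ (boxE n).powerset, sp p S (boxE n) (fC I J) T :=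
        Finset.sum_le_sum_of_subset_of_nonneg (Finset.filter_subset _ _) (fun T _ _ => hsp0 T)
      exact e1.trans (e2.trans (sum_sp_le_one D.ok D.sub D.fair I J))
    have h2 : 1 ≤ L0 ^ ε * L ^ (-ε) := by
      rw [Real.rpow_neg hL0.le, ← div_eq_mul_inv, le_div_iff₀ (Real.rpow_pos_of_pos hL0 _), one_mul]
      exact Real.rpow_le_rpow hL0.le hbig.le hε.le
    have h3 : 0 ≤ (C1 + 1331 / c3) * L ^ (-ε) := by positivity
    calc _ ≤ (1 : ℝ) := h1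
      _ ≤ L0 ^ ε * L ^ (-ε) := h2
      _ ≤ (L0 ^ ε + C1 + 1331 / c3) * L ^ (-ε) := by linarith
  -- separated scales
  push Not at hbig
  obtain ⟨m, hm⟩ : ∃ m : ℕ, m = ⌈L⌉₊ := ⟨_, rfl⟩
  have hmL : L ≤ m := by rw [hm]; exact Nat.le_ceil _
  have hmL2 : (m : ℝ) ≤ 2 * L := by
    have : (m : ℝ) < L + 1 := by rw [hm]; exact Nat.ceil_lt_add_one (by linarith)
    linarith
  have hm1r : (1:ℝ) ≤ m := hL1.trans hmL
  have hm1 : 1 ≤ m := by exact_mod_cast hm1r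
  obtain ⟨E, hE⟩ : ∃ E : ℝ, E = L ^ ε := ⟨_, rfl⟩
  have hE1 : 1 ≤ E := by rw [hE]; exact Real.one_le_rpow hL1 hε.le
  have hE0 : 0 < E := by linarith
  obtain ⟨E', hE'⟩ : ∃ E' : ℝ, E' = (m:ℝ) ^ ε := ⟨_, rfl⟩
  have hE'1 : 1 ≤ E' := by rw [hE']; exact Real.one_le_rpow hm1r hε.le
  have hEE' : E ≤ E' := by rw [hE, hE']; exact Real.rpow_le_rpow hL0.le hmL hε.le
  have hE'2 : E' ≤ 2 * E := by
    rw [hE, hE']
    calc (m:ℝ) ^ ε ≤ (2 * L) ^ ε := Real.rpow_le_rpow (by positivity) hmL2 hε.le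
      _ = 2 ^ ε * L ^ ε := Real.mul_rpow (by norm_num) hL0.le
      _ ≤ 2 * L ^ ε := by
          refine mul_le_mul_of_nonneg_right ?_ (by positivity)
          calc (2:ℝ) ^ ε ≤ 2 ^ (1:ℝ) :=
                Real.rpow_le_rpow_of_exponent_le (by norm_num) (by linarith)
            _ = 2 := Real.rpow_one _
  obtain ⟨k, hk1, hk2⟩ := exists_nat_pow_near hE'1 (show (1 : ℝ) < 5 by norm_num)
  obtain ⟨P, hP⟩ : ∃ P : ℕ, P = 5 ^ (k + 1) := ⟨_, rfl⟩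
  have hPr : (P : ℝ) = 5 ^ (k + 1) := by rw [hP]; push_cast; ring
  have hPE2 : (P : ℝ) ≤ 10 * E := by rw [hPr, pow_succ]; linarith
  have hP1 : 1 ≤ P := by rw [hP]; exact Nat.one_le_pow _ _ (by norm_num)
  have hP11 : (P:ℝ) + 1 ≤ 11 * E := by linarith
  obtain ⟨J1, hJ1⟩ : ∃ J1 : ℕ, J1 = ⌈E ^ 3⌉₊ := ⟨_, rfl⟩
  have hE3 : 1 ≤ E ^ 3 := one_le_pow₀ hE1
  have hJE : E ^ 3 ≤ J1 := by rw [hJ1]; exact Nat.le_ceil _
  have hJE2 : (J1 : ℝ) ≤ 2 * E ^ 3 := by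
    have : (J1 : ℝ) < E ^ 3 + 1 := by rw [hJ1]; exact Nat.ceil_lt_add_one (by linarith)
    linarith
  have hJ11 : 1 ≤ J1 := by exact_mod_cast hE3.trans hJE
  have ha1 : 1 ≤ A * r := Nat.one_le_iff_ne_zero.mpr (Nat.mul_ne_zero (by omega) (by omega))
  obtain ⟨K, hK⟩ : ∃ K : ℝ, K = c2 * ((A * r : ℕ) : ℝ) ^ (3/4 : ℝ) := ⟨_, rfl⟩
  have hKκ : K = κ * (r:ℝ) ^ (3/4 : ℝ) := by
    rw [hK, hκ]
    push_cast
    rw [Real.mul_rpow (by positivity) (by positivity)]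
    ring
  have hKge1 : 1 ≤ K := by rw [hKκ]; exact hK1
  -- room
  have hroom : 176 * (A : ℝ) * E ≤ L := by
    have h1 : E ≤ L ^ (1/2 : ℝ) := by
      rw [hE]
      exact Real.rpow_le_rpow_of_exponent_le hL1 (by linarith)
    have h2 : 176 * (A:ℝ) ≤ L ^ (1/2 : ℝ) := by
      have h3 := Real.rpow_le_rpow (by positivity) hbig (show (0:ℝ) ≤ 1/2 by norm_num)
      rw [hL0d, ← Real.rpow_natCast, ← Real.rpow_mul (by positivity)] at h3
      norm_num at h3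
      exact h3
    have h4 : L ^ (1/2 : ℝ) * L ^ (1/2 : ℝ) = L := by
      rw [← Real.rpow_add hL0]; norm_num
    calc 176 * (A : ℝ) * E ≤ L ^ (1/2 : ℝ) * L ^ (1/2 : ℝ) :=
          mul_le_mul h2 h1 (by positivity) (by positivity)
      _ = L := h4
  have hiii : 4 * (4 * (A * r) + 4 * (P * (A * r))) ≤ n := by
    have h1 : (16 : ℝ) * ((A : ℝ) * r) * (1 + P) ≤ n := by
      rw [hnL]
      calc (16 : ℝ) * ((A : ℝ) * r) * (1 + P) ≤ 16 * ((A:ℝ) * r) * (11 * E) :=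
            mul_le_mul_of_nonneg_left (by linarith) (by positivity)
        _ = (176 * (A:ℝ) * E) * r := by ring
        _ ≤ L * r := mul_le_mul_of_nonneg_right hroom (by linarith)
    have h4 : ((4 * (4 * (A * r) + 4 * (P * (A * r))) : ℕ) : ℝ) ≤ (n : ℝ) := by
      refine le_trans (le_of_eq ?_) h1
      push_cast; ring
    exact_mod_cast h4
  -- the number of cells
  obtain ⟨Zc, hZc⟩ : ∃ Zc : ℕ, Zc = (2 * (3 * n / 4 / (8 * (A * r))) + 2) ^ 2 := ⟨_, rfl⟩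
  have hZcL : (Zc:ℝ) ≤ 9 * L ^ 2 := by
    have h1 : ((3 * n / 4 / (8 * (A * r)) : ℕ) : ℝ) ≤ L / 8 := by
      have h2 : ((3 * n / 4 / (8 * (A * r)) : ℕ) : ℝ) ≤
          ((3 * n / 4 : ℕ) : ℝ) / ((8 * (A * r) : ℕ) : ℝ) := Nat.cast_div_le
      have h3 : ((3 * n / 4 : ℕ) : ℝ) ≤ n := by
        have : 3 * n / 4 ≤ n := by omega
        exact_mod_cast this
      have h4 : (8:ℝ) * r ≤ ((8 * (A * r) : ℕ) : ℝ) := by
        have h41 : 8 * r ≤ 8 * (A * r) :=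
          Nat.mul_le_mul_left _ (Nat.le_mul_of_pos_left _ (Nat.pos_of_mul_pos_right ha1))
        exact_mod_cast h41
      calc ((3 * n / 4 / (8 * (A * r)) : ℕ) : ℝ) ≤
          ((3 * n / 4 : ℕ) : ℝ) / ((8 * (A * r) : ℕ) : ℝ) := h2
        _ ≤ (n:ℝ) / (8 * r) := div_le_div₀ (by positivity) h3 (by positivity) h4
        _ = L / 8 := by rw [hL]; field_simp
    rw [hZc]
    push_cast
    have h5 : 2 * ((3 * n / 4 / (8 * (A * r)) : ℕ) : ℝ) + 2 ≤ 3 * L := by linarith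
    calc (2 * ((3 * n / 4 / (8 * (A * r)) : ℕ) : ℝ) + 2) ^ 2 ≤ (3 * L) ^ 2 :=
          pow_le_pow_left₀ (by positivity) h5 2
      _ = 9 * L ^ 2 := by ring
  have hx1K : x ≤ 1 - 1 / K := by rw [hKκ]; exact hx1
  -- the estimates
  have hb8 : 1 ≤ 8 * (A * r) := by omega
  have hWJ : 1 ≤ (P + 1) ^ 2 * J1 := Nat.one_le_iff_ne_zero.mpr
    (Nat.mul_ne_zero (pow_ne_zero _ (Nat.succ_ne_zero _)) (by omega))
  have hfc := hfew n (8 * (A * r)) ((P + 1) ^ 2 * J1) hn hb8 hWJ p S I J I' J' D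
  have hmain := ns_core2 (a := A * r) (P := P) (J1 := J1) (Zc := Zc) ha1 hP1 hJ11 hiii D hKge1 hc3
    (η := (m : ℝ) ^ (-4 : ℝ)) (by positivity)
    (by
      intro c hDB hbc W hW hWd
      have h5 : 4 * (5 ^ (k + 1) * (A * r)) = 4 * (P * (A * r)) := by rw [hP]
      have h := hqs m r (k + 1) hm1 (hr0q.trans hr) (by omega) (by rw [← hE']; exact hk2.le)
        p S I J I' J' c
        (by rw [h5]; exact hDB) (boxE n) W D.sub D.fair (by rw [h5]; exact hbc) hW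
        (by rw [h5]; exact hWd)
      rw [h5, ← hK] at h
      exact h)
    hfc (by rw [hZc]; exact card_cells (by omega)) hx0 hx1K
  refine hmain.trans ?_
  have hJ1r : (0 : ℝ) < J1 := by exact_mod_cast hJ11
  -- first term
  have hterm1 : Cf * ((((P + 1) ^ 2 * J1 : ℕ) : ℝ)) ^ 3 *
      ((((P + 1) ^ 2 * J1 : ℕ) : ℝ) * ((8 * (A * r) : ℕ) : ℝ) / n) ^ cf ≤ C1 * L ^ (-ε) := by
    obtain ⟨W, hW⟩ : ∃ W : ℝ, W = (((P + 1) ^ 2 * J1 : ℕ) : ℝ) := ⟨_, rfl⟩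
    rw [← hW]
    have hW0 : 0 ≤ W := by rw [hW]; positivity
    have hWE : W ≤ 242 * E ^ 5 := by
      rw [hW]
      push_cast
      have h1 : ((P : ℝ) + 1) ^ 2 ≤ (11 * E) ^ 2 := pow_le_pow_left₀ (by positivity) hP11 2
      calc ((P : ℝ) + 1) ^ 2 * J1 ≤ (11 * E) ^ 2 * (2 * E ^ 3) :=
            mul_le_mul h1 hJE2 (by positivity) (by positivity)
        _ = 242 * E ^ 5 := by ring
    have h3 : W ^ 3 ≤ 242 ^ 3 * L ^ (15 * ε) := by
      have h4 : W ^ 3 ≤ (242 * E ^ 5) ^ 3 := pow_le_pow_left₀ hW0 hWE 3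
      have h5 : (242 * E ^ 5) ^ 3 = 242 ^ 3 * L ^ (15 * ε) := by
        have h51 : (242 * E ^ 5) ^ 3 = 242 ^ 3 * E ^ 15 := by ring
        have h52 : E ^ 15 = L ^ (15 * ε) := by
          rw [hE, ← Real.rpow_natCast (L ^ ε) 15, ← Real.rpow_mul hL0.le]
          congr 1
          push_cast
          ring
        rw [h51, h52]
      rw [← h5]; exact h4
    have h6 : W * ((8 * (A * r) : ℕ) : ℝ) / n ≤ 3872 * A * L ^ (5 * ε - 1) := by
      have e0 : W * ((8 * (A * r) : ℕ) : ℝ) / n = W * (8 * A) / L := by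
        rw [hnL]
        push_cast
        field_simp
      have h8 : E ^ 5 / L = L ^ (5 * ε - 1) := by
        rw [hE, ← Real.rpow_natCast (L ^ ε), ← Real.rpow_mul hL0.le]
        have h9 : L ^ (ε * ((5 : ℕ) : ℝ)) / L = L ^ (ε * ((5 : ℕ) : ℝ)) / L ^ (1 : ℝ) := by
          rw [Real.rpow_one]
        rw [h9, ← Real.rpow_sub hL0]
        congr 1
        push_cast
        ring
      have h10 : 0 ≤ L ^ (5 * ε - 1) := by positivity
      rw [e0]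
      calc W * (8 * A) / L ≤ (242 * E ^ 5) * (8 * A) / L := by
            apply div_le_div_of_nonneg_right _ hL0.le
            exact mul_le_mul_of_nonneg_right hWE (by positivity)
        _ = 1936 * A * (E ^ 5 / L) := by ring
        _ = 1936 * A * L ^ (5 * ε - 1) := by rw [h8]
        _ ≤ 3872 * A * L ^ (5 * ε - 1) := by
            apply mul_le_mul_of_nonneg_right _ h10
            have : (0:ℝ) ≤ A := Nat.cast_nonneg _
            linarith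
    have h10 : (W * ((8 * (A * r) : ℕ) : ℝ) / n) ^ cf
        ≤ (3872 * (A : ℝ)) ^ cf * L ^ ((5 * ε - 1) * cf) := by
      have h11 := Real.rpow_le_rpow (by positivity) h6 hcf.le
      rw [Real.mul_rpow (by positivity) (by positivity), ← Real.rpow_mul hL0.le] at h11
      exact h11
    have h12 : L ^ (15 * ε) * L ^ ((5 * ε - 1) * cf) ≤ L ^ (-ε) := by
      rw [← Real.rpow_add hL0]
      apply Real.rpow_le_rpow_of_exponent_le hL1
      have h13 : (5 * ε - 1) * cf ≤ -(95 / 100) * cf :=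
        mul_le_mul_of_nonneg_right (by linarith) hcf.le
      linarith
    calc Cf * W ^ 3 * (W * ((8 * (A * r) : ℕ) : ℝ) / n) ^ cf
        ≤ Cf * (242 ^ 3 * L ^ (15 * ε)) * ((3872 * (A : ℝ)) ^ cf * L ^ ((5 * ε - 1) * cf)) := by
          apply mul_le_mul _ h10 (by positivity) (by positivity)
          exact mul_le_mul_of_nonneg_left h3 hCf.le
      _ = C1 * (L ^ (15 * ε) * L ^ ((5 * ε - 1) * cf)) := by rw [hC1]; ring
      _ ≤ C1 * L ^ (-ε) := mul_le_mul_of_nonneg_left h12 hC1p.le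
  have hterm2 : ((P : ℝ) + 1) ^ 2 * ((2 + (Zc:ℝ) * (m : ℝ) ^ (-4 : ℝ)) / (c3 * J1))
      ≤ 1331 / c3 * L ^ (-ε) := by
    have h1 : ((P : ℝ) + 1) ^ 2 ≤ (11 * E) ^ 2 := pow_le_pow_left₀ (by positivity) hP11 2
    have h2 : L ^ 2 * L ^ (-4 : ℝ) ≤ 1 := by
      rw [← Real.rpow_natCast L 2, ← Real.rpow_add hL0]
      exact Real.rpow_le_one_of_one_le_of_nonpos hL1 (by norm_num)
    have h21 : (m:ℝ) ^ (-4 : ℝ) ≤ L ^ (-4 : ℝ) :=
      Real.rpow_le_rpow_of_nonpos hL0 hmL (by norm_num)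
    have h3 : 2 + (Zc:ℝ) * (m : ℝ) ^ (-4 : ℝ) ≤ 11 := by
      have h31 : (Zc:ℝ) * (m : ℝ) ^ (-4 : ℝ) ≤ 9 * L ^ 2 * L ^ (-4 : ℝ) :=
        mul_le_mul hZcL h21 (by positivity) (by positivity)
      have h32 : 9 * L ^ 2 * L ^ (-4 : ℝ) = 9 * (L ^ 2 * L ^ (-4 : ℝ)) := by ring
      linarith
    have h4 : (2 + (Zc:ℝ) * (m : ℝ) ^ (-4 : ℝ)) / (c3 * J1) ≤ 11 / (c3 * E ^ 3) := by
      apply div_le_div₀ (by norm_num) h3 (by positivity)
      exact mul_le_mul_of_nonneg_left hJE hc3.le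
    have h5 : E * L ^ (-ε) = 1 := by
      rw [hE, ← Real.rpow_add hL0]; simp
    have h6 : L ^ (-ε) = 1 / E := by
      field_simp
      linarith
    calc ((P : ℝ) + 1) ^ 2 * ((2 + (Zc:ℝ) * (m : ℝ) ^ (-4 : ℝ)) / (c3 * J1))
        ≤ (11 * E) ^ 2 * (11 / (c3 * E ^ 3)) :=
          mul_le_mul h1 h4 (by positivity) (by positivity)
      _ = 1331 / c3 * (1 / E) := by field_simp; ring
      _ = 1331 / c3 * L ^ (-ε) := by rw [h6]
  have h0 : 0 ≤ L0 ^ ε * L ^ (-ε) := by positivity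
  linarith

end Pool.Agent.Y197.NW
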