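import Pool.Agent.Y197.NW.Ratio
import Pool.Agent.Y197.NW.Hit
import Pool.Agent.H389R2.NS.D0
import Pool.Agent.H12R2.Sep.RectDual
import Pool.Agent.H12R2.Sep.InTop
import Pool.Agent.TH291.NW.Low1
import Pool.Agent.W424.AR.Bdd

/-! Noise sensitivity of the crossing of a rectangle. -/

set_option autoImplicit false

namespace Pool.Agent.Y197.NW

open H389NS H974 H12S Finset

theorem HH_map {E E' : Type*} [DecidableEq E] [DecidableEq E'] (g : E ↪ E') (S V B : Finset E)
    (f : Finset E' → ℝ) (x : ℝ) :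
    HH (S.map g) (V.map g) (B.map g) f x = HH S V B (fun F => f (F.map g)) x := by
  unfold HH
  rw [D0.E2_map, D0.E2_map]
  simp only [Finset.mem_map']

/-- The crossing event of the rectangle `[0,w] × [0,h]`. -/
def Cr (w h : ℕ) (F : Finset Edg) : Prop := Cn (lsd 0 0 h) (lsd w 0 h) (↑F : Set Edg)

theorem Cr_iff {w h : ℕ} (hw : 1 ≤ w) {F : Finset Edg} (hF : F ⊆ RE 0 w 0 h) :
    Cr w h F ↔ LRc 0 w 0 h F := TH291.NW.cn_lr (by exact_mod_cast hw) hF

/-- Its indicator. -/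
noncomputable def fR (w h : ℕ) (F : Finset Edg) : ℝ := fC (lsd 0 0 h) (lsd w 0 h) F

theorem lsd_im (a b x c d : ℤ) : lsd (x + a) (c + b) (d + b) = (trl a b).ψ '' lsd x c d := by
  ext ⟨u, v⟩
  rw [it_mem]
  simp only [lsd, Set.mem_ofPred_eq]
  omega

/-- The domain seen from a point of the rectangle. -/
theorem dom_rect {w h n : ℕ} {cx cy : ℤ} (hn : 1 ≤ n) (h1 : (n:ℤ) ≤ cx) (h2 : cx + n ≤ w)
    (h3 : (n:ℤ) ≤ cy) (h4 : cy + n + 1 ≤ h) :
    DomN hp (RE (-cx) (w - cx) (-cy) (h - cy)) (lsd (-cx) (-cy) (h - cy))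
      (lsd (w - cx) (-cy) (h - cy)) {v | v.2 = -cy - 1} {v | v.2 = h - cy} n where
  ok := SSx.hp_ok
  sub := by
    unfold boxE
    apply RE_subset <;> omega
  fair := fun e _ => rfl
  dom := rect_dual (by omega) (by omega)
  far := by
    rintro v (⟨g1, -⟩ | ⟨g1, -⟩)
    · left
      rw [g1]
      simp only [sub_zero]
      rw [le_abs]; right; omega
    · left
      rw [g1]
      simp only [sub_zero]
      rw [le_abs]; left; omega
  far' := by
    rintro v (g1 | g1)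
    · right
      rw [Set.mem_ofPred_eq] at g1
      rw [g1]
      simp only [sub_zero]
      rw [le_abs]; right; push_cast; omega
    · right
      rw [Set.mem_ofPred_eq] at g1
      rw [g1]
      simp only [sub_zero]
      rw [le_abs]; left; push_cast; omega

/-- The mass of the sets which hit a block. -/
theorem box_hit : ∃ (C c κ : ℝ) (r0 : ℕ), 0 < C ∧ 0 < c ∧ 0 < κ ∧ 1 ≤ r0 ∧
    1 ≤ κ * (r0:ℝ) ^ (3/4 : ℝ) ∧ ∀ w h n r : ℕ, ∀ cx cy : ℤ, r0 ≤ r → r ≤ n →
    (n:ℤ) ≤ cx → cx + n ≤ w → (n:ℤ) ≤ cy → cy + n + 1 ≤ h →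
    ∀ x : ℝ, 0 ≤ x → x ≤ 1 - 1 / (κ * (r:ℝ) ^ (3/4 : ℝ)) →
      HH (RE 0 w 0 h) (RE 0 w 0 h) (blk (cx, cy) (n / 2)) (fR w h) x ≤ C * ((r:ℝ) / n) ^ c := by
  obtain ⟨C, c, κ, r0, hC, hc, hκ, hr0, hκr, hns⟩ := ns_ratio
  refine ⟨C, c, κ, r0, hC, hc, hκ, hr0, hκr, ?_⟩
  intro w h n r cx cy hr hrn h1 h2 h3 h4 x hx0 hx1
  have hn : 1 ≤ n := hr0.trans (hr.trans hrn)
  have hx1' : x ≤ 1 := by
    have : 0 ≤ 1 / (κ * (r:ℝ) ^ (3/4 : ℝ)) := by positivity
    linarith
  obtain ⟨S0, hS0⟩ : ∃ S0 : Finset Edg, S0 = RE (-cx) (w - cx) (-cy) (h - cy) := ⟨_, rfl⟩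
  have eS : RE 0 w 0 h = S0.map (trl cx cy).φ.toEmbedding := by
    have : RE 0 w 0 h = (trl cx cy).mp S0 := by
      rw [hS0, trl_RE]
      congr 1 <;> ring
    exact this
  have eb : ∀ m : ℕ, blk (cx, cy) m = (boxE m).map (trl cx cy).φ.toEmbedding := by
    intro m
    have : blk (cx, cy) m = (trl cx cy).mp (boxE m) := by
      unfold blk boxE
      rw [trl_RE]
      congr 1 <;> simp only <;> ring
    exact this
  have D := dom_rect hn h1 h2 h3 h4
  rw [← hS0] at D
  have hbn : blk (cx, cy) (n / 2) ⊆ blk (cx, cy) n := it_blk_mono (Nat.div_le_self _ _)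
  have hbS : blk (cx, cy) n ⊆ RE 0 w 0 h := by
    unfold blk
    apply RE_subset <;> simp only <;> omega
  refine (HH_mono hbn hbS (fR w h) hx0 hx1').trans ?_
  rw [eS, eb, eb, HH_map, HH_eq _ D.sub]
  have ef : (fun F : Finset Edg => fR w h (F.map (trl cx cy).φ.toEmbedding)) =
      fC (lsd (-cx) (-cy) (h - cy)) (lsd (w - cx) (-cy) (h - cy)) := by
    funext F
    unfold fR fC
    have e1 : lsd (0:ℤ) 0 h = (trl cx cy).ψ '' lsd (-cx) (-cy) (h - cy) := by
      rw [← lsd_im]; congr 1 <;> ring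
    have e2 : lsd (w:ℤ) 0 h = (trl cx cy).ψ '' lsd (w - cx) (-cy) (h - cy) := by
      rw [← lsd_im]; congr 1 <;> ring
    have e3 : (↑(F.map (trl cx cy).φ.toEmbedding) : Set Edg) = (trl cx cy).φ '' ↑F :=
      (trl cx cy).coe_mp F
    rw [e1, e2, e3]
    congr 1
    exact propext (it_cn (trl cx cy))
  rw [ef]
  exact hns n r hr hrn hp S0 _ _ _ _ D x hx0 hx1

/-- Continuity of the crossing probability in the sides. -/
theorem sides (K : ℕ) (hK : 1 ≤ K) : ∃ C : ℝ, 0 < C ∧ ∀ w h n : ℕ, 1 ≤ n → 8 * K * n ≤ w →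
    8 * K * n ≤ h → w ≤ K * h → h ≤ K * w →
      hh (1/2) ((w:ℤ) - 2 * n) h - hh (1/2) w ((h:ℤ) - 2 * n - 1) ≤ C * n / w := by
  obtain ⟨c, C, hc, hC, hb⟩ := Pool.Agent.W424.AR.bdd (2 * K) (by omega)
  refine ⟨(2 * K + 3) * C, by positivity, ?_⟩
  intro w h n hn hw hh1 hwh hhw
  have hKn : n ≤ K * n := Nat.le_mul_of_pos_left _ hK
  have a1 : 8 * n ≤ w := le_trans (by nlinarith) hw
  have a2 : 8 * n ≤ h := le_trans (by nlinarith) hh1
  have hwR : (0:ℝ) < w := by
    have : 0 < w := by omega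
    exact_mod_cast this
  have hhR : (0:ℝ) < h := by
    have : 0 < h := by omega
    exact_mod_cast this
  -- widths
  have t1 : ∀ j : ℕ, j ≤ 2 * n → hh (1/2) ((w:ℤ) - j) h - hh (1/2) w h ≤ j * (C / h) := by
    intro j
    induction j with
    | zero => intro _; simp
    | succ j ih =>
      intro hj
      have h1 := ih (by omega)
      have h2 := (hb ((w:ℤ) - (j + 1)) h (by omega) (by omega) (by
        push_cast
        have : (w:ℤ) ≤ K * h := by exact_mod_cast hwh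
        nlinarith) (by
        push_cast
        have : (h:ℤ) ≤ K * w := by exact_mod_cast hhw
        have h3 : (K:ℤ) ≥ 1 := by exact_mod_cast hK
        have h4 : 2 * ((j:ℤ) + 1) ≤ w := by omega
        nlinarith)).1.2
      have e : (w:ℤ) - (j + 1) + 1 = w - j := by ring
      rw [e] at h2
      push_cast
      push_cast at h2
      linarith
  have t2 : ∀ j : ℕ, j ≤ 2 * n + 1 → hh (1/2) w h - hh (1/2) w ((h:ℤ) - j) ≤ j * (C / w) := by
    intro j
    induction j with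
    | zero => intro _; simp
    | succ j ih =>
      intro hj
      have h1 := ih (by omega)
      have h2 := (hb (w:ℤ) ((h:ℤ) - (j + 1)) (by omega) (by omega) (by
        push_cast
        have : (w:ℤ) ≤ K * h := by exact_mod_cast hwh
        have h3 : (K:ℤ) ≥ 1 := by exact_mod_cast hK
        have h4 : 2 * ((j:ℤ) + 1) ≤ h := by omega
        nlinarith) (by
        push_cast
        have : (h:ℤ) ≤ K * w := by exact_mod_cast hhw
        nlinarith)).2.2
      have e : (h:ℤ) - (j + 1) + 1 = h - j := by ring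
      rw [e] at h2
      push_cast
      push_cast at h2
      linarith
  have h1 := t1 (2 * n) le_rfl
  have h2 := t2 (2 * n + 1) le_rfl
  push_cast at h1 h2
  have e : (h:ℤ) - (2 * n + 1) = h - 2 * n - 1 := by ring
  rw [e] at h2
  have h3 : C / h ≤ K * (C / w) := by
    rw [← mul_div_assoc, div_le_div_iff₀ hhR hwR]
    have : (w:ℝ) ≤ K * h := by exact_mod_cast hwh
    calc C * w ≤ C * (K * h) := mul_le_mul_of_nonneg_left this hC.le
      _ = K * C * h := by ring
  have hnR : (1:ℝ) ≤ n := by exact_mod_cast hn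
  have h4 : 0 ≤ C / w := by positivity
  calc hh (1/2) ((w:ℤ) - 2 * n) h - hh (1/2) w ((h:ℤ) - 2 * n - 1)
      ≤ 2 * n * (C / h) + (2 * n + 1) * (C / w) := by linarith
    _ ≤ 2 * n * (K * (C / w)) + (2 * n + 1) * (C / w) := by
        have := mul_le_mul_of_nonneg_left h3 (by positivity : (0:ℝ) ≤ 2 * n)
        linarith
    _ ≤ 2 * n * (K * (C / w)) + (3 * n) * (C / w) := by
        have := mul_le_mul_of_nonneg_right (show (2 * (n:ℝ) + 1) ≤ 3 * n by linarith) h4
        linarith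
    _ = (2 * K + 3) * C * n / w := by ring

end Pool.Agent.Y197.NW
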