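import Pool.Agent.Y197.NW.Rect

/-! Noise sensitivity of the crossing of a rectangle: the covariance. -/

set_option autoImplicit false

namespace Pool.Agent.Y197.NW

open H389NS H974 H12S Finset

theorem Pr_half (S : Finset Edg) (A : Finset Edg → Prop) : Pr hp S A = Pr (fun _ => 1/2) S A := rfl

theorem LRE_sub_RE {a b c d a' b' c' d' : ℤ} (h1 : a' ≤ a) (h2 : b ≤ b') (h3 : c' ≤ c)
    (h4 : d ≤ d') : LRE a b c d ⊆ RE a' b' c' d' :=
  LRE_subset_RE.trans (RE_subset h1 h2 h3 h4)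

theorem Ex_fR {w h : ℕ} (hw : 1 ≤ w) : Ex hp (RE 0 w 0 h) (fR w h) = hh (1/2) w h := by
  have e : Ex hp (RE 0 w 0 h) (fR w h) = Pr hp (RE 0 w 0 h) (LRc 0 w 0 h) := by
    refine Ex_congr (fun F hF => ?_)
    unfold fR fC
    congr 1
    exact propext (Cr_iff hw hF)
  rw [e, Pr_half, pr_LRc (1/2) LRE_subset_RE, sub_zero, sub_zero]

/-- The inner rectangle knows almost everything. -/
theorem strip {w h n : ℕ} (hn : 1 ≤ n) (hw : 4 * n ≤ w) (hh1 : 4 * n ≤ h) :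
    UU hp (RE 0 w 0 h) (RE n (w - n) n (h - n - 1)) (fR w h) -
        (Ex hp (RE 0 w 0 h) (fR w h)) ^ 2 ≤
      hh (1/2) ((w:ℤ) - 2 * n) h - hh (1/2) w ((h:ℤ) - 2 * n - 1) := by
  have hW : RE n (w - n) n (h - n - 1) ⊆ RE 0 (w:ℤ) 0 h := by
    apply RE_subset <;> omega
  refine (UU_var hW (fR w h)
    (fun F => ind (LRc n (w - n) n (h - n - 1) (F ∩ RE n (w - n) n (h - n - 1)))) ?_).trans ?_
  · intro G Y hG hY
    have e : (G ∪ Y) ∩ RE n (w - n) n (h - n - 1) = Y ∩ RE n (w - n) n (h - n - 1) := by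
      rw [Finset.union_inter_distrib_right]
      have : G ∩ RE n (w - n) n (h - n - 1) = ∅ := by
        rw [← Finset.disjoint_iff_inter_eq_empty]
        exact Finset.disjoint_of_subset_left hG Finset.sdiff_disjoint
      rw [this, Finset.empty_union]
    simp only [e]
  · have e1 : hh (1/2) ((w:ℤ) - 2 * n) h =
        Pr hp (RE 0 w 0 h) (LRc n (w - n) 0 h) := by
      rw [Pr_half, pr_LRc (1/2) (LRE_sub_RE (by omega) (by omega) le_rfl le_rfl)]
      congr 1 <;> ring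
    have e2 : hh (1/2) w ((h:ℤ) - 2 * n - 1) =
        Pr hp (RE 0 w 0 h) (LRc 0 w n (h - n - 1)) := by
      rw [Pr_half, pr_LRc (1/2) (LRE_sub_RE le_rfl le_rfl (by omega) (by omega))]
      congr 1 <;> ring
    rw [e1, e2]
    unfold Pr
    rw [← Ex_sub]
    refine Ex_mono SSx.hp_ok (fun F hF => ?_)
    have a0 : fR w h F = ind (LRc 0 w 0 h F) := by
      unfold fR fC
      congr 1
      exact propext (Cr_iff (by omega) hF)
    have a1 : ind (LRc n (w - n) n (h - n - 1) (F ∩ RE n (w - n) n (h - n - 1))) =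
        ind (LRc n (w - n) n (h - n - 1) F) := by
      congr 1
      exact propext (LRc_local LRE_subset_RE).symm
    have b1 : LRc 0 w n (h - n - 1) F → LRc 0 w 0 h F :=
      LRc_sub le_rfl (by omega) le_rfl (by omega) (by omega)
    have b2 : LRc 0 w 0 h F → LRc n (w - n) 0 h F :=
      LRc_sub (by omega) (by omega) (by omega) le_rfl le_rfl
    have b3 : LRc 0 w n (h - n - 1) F → LRc n (w - n) n (h - n - 1) F :=
      LRc_sub (by omega) (by omega) (by omega) le_rfl le_rfl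
    have b4 : LRc n (w - n) n (h - n - 1) F → LRc n (w - n) 0 h F :=
      LRc_sub le_rfl (by omega) le_rfl (by omega) (by omega)
    rw [a0, a1]
    by_cases p1 : LRc 0 w n (h - n - 1) F
    · rw [ind_of p1, ind_of (b1 p1), ind_of (b3 p1), ind_of (b2 (b1 p1))]; norm_num
    · rw [ind_not_of p1]
      by_cases p2 : LRc 0 w 0 h F
      · rw [ind_of p2, ind_of (b2 p2)]
        by_cases p3 : LRc n (w - n) n (h - n - 1) F
        · rw [ind_of p3]; norm_num
        · rw [ind_not_of p3]; norm_num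
      · rw [ind_not_of p2]
        by_cases p3 : LRc n (w - n) n (h - n - 1) F
        · rw [ind_of p3, ind_of (b4 p3)]; norm_num
        · rw [ind_not_of p3]
          have := ind_nonneg (LRc n (w - n) 0 h F)
          linarith

/-- The probability that the rectangle is crossed in both layers. -/
noncomputable def V2 (w h : ℕ) (x : ℝ) : ℝ :=
  P2 (fun _ => x) (RE 0 w 0 h) (Cr w h) (Cr w h)

theorem V2_eq (w h : ℕ) (x : ℝ) : V2 w h x =
    E2 (fun _ => x) (RE 0 w 0 h) (fun F F' => fR w h F * fR w h F') := rfl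

theorem V2_le_one (w h : ℕ) {x : ℝ} (h0 : 0 ≤ x) (h1 : x ≤ 1) : V2 w h x ≤ 1 := by
  refine (P2_le_Pr (fun _ _ => ⟨h0, h1⟩) _ _).trans ?_
  refine Ex_le_of_le SSx.hp_ok (fun F _ => ind_le_one _)

/-- The covariance of the two layers. -/
theorem cov_le (K : ℕ) (hK : 1 ≤ K) : ∃ (C γ κ : ℝ) (r0 : ℕ), 0 < C ∧ 0 < γ ∧ 0 < κ ∧ 1 ≤ r0 ∧
    1 ≤ κ * (r0:ℝ) ^ (3/4 : ℝ) ∧ ∀ w h r : ℕ, 1 ≤ w → w ≤ K * h → h ≤ K * w →
    r0 ≤ r → ∀ x : ℝ, 0 ≤ x → x ≤ 1 - 1 / (κ * (r:ℝ) ^ (3/4 : ℝ)) →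
      V2 w h x - (hh (1/2) w h) ^ 2 ≤ C * ((r:ℝ) / w) ^ γ := by
  classical
  obtain ⟨C1, c, κ, r0, hC1, hc, hκ, hr0, hκr, hbox⟩ := box_hit
  obtain ⟨C2, hC2, hsd⟩ := sides K hK
  have hKr : (1:ℝ) ≤ K := by exact_mod_cast hK
  obtain ⟨a, ha⟩ : ∃ a : ℝ, a = c / (2 * (2 + c)) := ⟨_, rfl⟩
  have ha0 : 0 < a := by rw [ha]; positivity
  have ha1 : a ≤ 1/2 := by
    rw [ha, div_le_iff₀ (by positivity)]
    linarith
  have hac : 2 * a + (a - 1) * c = -(c / 2) := by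
    rw [ha]; field_simp; ring
  obtain ⟨γ, hγ⟩ : ∃ γ : ℝ, γ = min a (c / 2) := ⟨_, rfl⟩
  have hγ0 : 0 < γ := by rw [hγ]; exact lt_min ha0 (by positivity)
  have hγa : γ ≤ a := by rw [hγ]; exact min_le_left _ _
  have hγc : γ ≤ c / 2 := by rw [hγ]; exact min_le_right _ _
  obtain ⟨L0, hL0⟩ : ∃ L0 : ℝ, L0 = (8 * (K:ℝ) ^ 2) ^ (1 / a) := ⟨_, rfl⟩
  have hK8 : 8 ≤ 8 * (K:ℝ) ^ 2 := by
    have := one_le_pow₀ (n := 2) (show (1:ℝ) ≤ K by exact_mod_cast hK)
    linarith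
  have hL04 : 4 ≤ L0 := by
    rw [hL0]
    calc (4:ℝ) ≤ (8 * (K:ℝ) ^ 2) ^ (1:ℝ) := by rw [Real.rpow_one]; linarith
      _ ≤ _ := Real.rpow_le_rpow_of_exponent_le (by linarith) (by
          rw [le_div_iff₀ ha0]; linarith)
  have hL0p : 0 < L0 := by linarith
  refine ⟨L0 ^ γ + 64 * K * C1 * 2 ^ c + C2, γ, κ, r0, by positivity, hγ0, hκ, hr0, hκr, ?_⟩
  intro w h r hw hwh hhw hr x hx0 hx1
  have hr1 : 1 ≤ r := hr0.trans hr
  have hrR : (1:ℝ) ≤ r := by exact_mod_cast hr1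
  have hwR : (1:ℝ) ≤ w := by exact_mod_cast hw
  have hx1' : x ≤ 1 := by
    have : 0 ≤ 1 / (κ * (r:ℝ) ^ (3/4 : ℝ)) := by positivity
    linarith
  obtain ⟨L, hL⟩ : ∃ L : ℝ, L = (w:ℝ) / r := ⟨_, rfl⟩
  have hLp : 0 < L := by rw [hL]; positivity
  have hwL : (w:ℝ) = r * L := by rw [hL]; field_simp
  have hrw : ((r:ℝ) / w) ^ γ = L ^ (-γ) := by
    rw [Real.rpow_neg hLp.le, ← Real.inv_rpow hLp.le, hL, inv_div]
  rw [hrw]
  have hLγ : 0 < L ^ (-γ) := Real.rpow_pos_of_pos hLp _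
  by_cases hbig : L < L0
  · have h1 : V2 w h x - (hh (1/2) w h) ^ 2 ≤ 1 := by
      have := V2_le_one w h hx0 hx1'
      have := sq_nonneg (hh (1/2) w h)
      linarith
    have h2 : 1 ≤ L0 ^ γ * L ^ (-γ) := by
      rw [Real.rpow_neg hLp.le, ← div_eq_mul_inv, le_div_iff₀ (Real.rpow_pos_of_pos hLp _), one_mul]
      exact Real.rpow_le_rpow hLp.le hbig.le hγ0.le
    have h3 : 0 ≤ (64 * K * C1 * 2 ^ c + C2) * L ^ (-γ) := by positivity
    calc _ ≤ (1 : ℝ) := h1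
      _ ≤ L0 ^ γ * L ^ (-γ) := h2
      _ ≤ _ := by linarith
  push Not at hbig
  have hL1 : 1 ≤ L := by linarith
  obtain ⟨s, hs⟩ : ∃ s : ℝ, s = L ^ (-a) := ⟨_, rfl⟩
  have hs0 : 0 < s := by rw [hs]; exact Real.rpow_pos_of_pos hLp _
  have hs1 : s ≤ 1 := by
    rw [hs]; exact Real.rpow_le_one_of_one_le_of_nonpos hL1 (by linarith)
  have hsL : 8 * (K:ℝ) ^ 2 * s ≤ 1 := by
    have h1 : 8 * (K:ℝ) ^ 2 ≤ L ^ a := by
      have h2 := Real.rpow_le_rpow hL0p.le hbig ha0.le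
      rw [hL0, ← Real.rpow_mul (by positivity), one_div_mul_cancel ha0.ne', Real.rpow_one] at h2
      exact h2
    calc 8 * (K:ℝ) ^ 2 * s ≤ L ^ a * s := mul_le_mul_of_nonneg_right h1 hs0.le
      _ = 1 := by rw [hs, ← Real.rpow_add hLp]; simp
  have hws : (w:ℝ) * s = r * L ^ (1 - a) := by
    rw [hwL, hs, mul_assoc]
    congr 1
    rw [sub_eq_add_neg, Real.rpow_add hLp, Real.rpow_one]
  have hL2 : 2 ≤ L ^ (1 - a) := by
    calc (2:ℝ) = 4 ^ (1/2 : ℝ) := by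
          rw [show (4:ℝ) = 2 ^ (2:ℝ) by norm_num, ← Real.rpow_mul (by norm_num)]; norm_num
      _ ≤ L ^ (1/2 : ℝ) := Real.rpow_le_rpow (by norm_num) (by linarith) (by norm_num)
      _ ≤ L ^ (1 - a) := Real.rpow_le_rpow_of_exponent_le hL1 (by linarith)
  have hws2 : 2 * (r:ℝ) ≤ w * s := by
    rw [hws, mul_comm]
    exact mul_le_mul_of_nonneg_left hL2 (by linarith)
  obtain ⟨n, hn⟩ : ∃ n : ℕ, n = ⌊(w:ℝ) * s⌋₊ := ⟨_, rfl⟩
  have hn1 : (n:ℝ) ≤ w * s := by rw [hn]; exact Nat.floor_le (by positivity)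
  have hn2 : (w:ℝ) * s < n + 1 := by rw [hn]; exact Nat.lt_floor_add_one _
  have hn3 : (w:ℝ) * s ≤ 2 * n := by linarith
  have hrn : r ≤ n := by
    rw [hn, Nat.le_floor_iff (by positivity)]; linarith
  have hn2' : 2 ≤ n := by
    rw [hn, Nat.le_floor_iff (by positivity)]
    push_cast; linarith
  have hnR : (2:ℝ) ≤ n := by exact_mod_cast hn2'
  have hn0 : (0:ℝ) < n := by linarith
  have hwhR : (w:ℝ) ≤ K * h := by exact_mod_cast hwh
  have hhwR : (h:ℝ) ≤ K * w := by exact_mod_cast hhw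
  have h8w : 8 * K * n ≤ w := by
    have : (8 * K * n : ℝ) ≤ w := by
      calc (8 * K * n : ℝ) ≤ 8 * K * (w * s) := mul_le_mul_of_nonneg_left hn1 (by positivity)
        _ ≤ 8 * K ^ 2 * (w * s) := by
            apply mul_le_mul_of_nonneg_right _ (by positivity)
            apply mul_le_mul_of_nonneg_left _ (by norm_num)
            exact le_self_pow₀ (by exact_mod_cast hK) (by norm_num)
        _ = (8 * K ^ 2 * s) * w := by ring
        _ ≤ 1 * w := mul_le_mul_of_nonneg_right hsL (by positivity)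
        _ = w := one_mul _
    exact_mod_cast this
  have h8h : 8 * K * n ≤ h := by
    have : (8 * K * n : ℝ) ≤ h := by
      have h1 : (K:ℝ) * (8 * K * n) ≤ K * h := by
        calc (K:ℝ) * (8 * K * n) = 8 * K ^ 2 * n := by ring
          _ ≤ 8 * K ^ 2 * (w * s) := mul_le_mul_of_nonneg_left hn1 (by positivity)
          _ = (8 * K ^ 2 * s) * w := by ring
          _ ≤ 1 * w := mul_le_mul_of_nonneg_right hsL (by positivity)
          _ ≤ K * h := by rw [one_mul]; exact hwhR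
      exact le_of_mul_le_mul_left h1 (by linarith)
    exact_mod_cast this
  have hKn : n ≤ K * n := Nat.le_mul_of_pos_left _ hK
  have h8K : 8 * n ≤ 8 * K * n := Nat.mul_le_mul_right _ (Nat.le_mul_of_pos_right _ hK)
  have h8w' : 8 * n ≤ w := h8K.trans h8w
  have h8h' : 8 * n ≤ h := h8K.trans h8h
  -- the cover
  obtain ⟨g, hg⟩ : ∃ g : ℕ, g = n / 2 := ⟨_, rfl⟩
  have hg1 : 1 ≤ g := by omega
  have hg3 : n ≤ 3 * g := by omega
  obtain ⟨I, hI⟩ : ∃ I : Finset (ℕ × ℕ), I = (Finset.range (w / g + 1) ×ˢ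
      Finset.range (h / g + 1)).filter (fun p => n + p.1 * g + n ≤ w ∧
        n + p.2 * g + n + 1 ≤ h) := ⟨_, rfl⟩
  obtain ⟨B, hB⟩ : ∃ B : ℕ × ℕ → Finset Edg, B = fun p =>
      blk (((n + p.1 * g : ℕ) : ℤ), ((n + p.2 * g : ℕ) : ℤ)) (n / 2) := ⟨_, rfl⟩
  obtain ⟨W, hW⟩ : ∃ W : Finset Edg, W = RE (n:ℤ) (w - n) n (h - n - 1) := ⟨_, rfl⟩
  have hWS : W ⊆ RE 0 (w:ℤ) 0 h := by
    rw [hW]
    apply RE_subset <;> omega
  have hBS : ∀ p ∈ I, B p ⊆ RE 0 (w:ℤ) 0 h := by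
    intro p hp
    rw [hI, Finset.mem_filter] at hp
    obtain ⟨-, h1, h2⟩ := hp
    rw [hB]
    simp only
    unfold blk
    apply RE_subset <;> simp only <;> push_cast <;> omega
  have hcov : ∀ e ∈ W, ∃ p ∈ I, e ∈ B p := by
    rintro ⟨x, y, b⟩ he
    rw [hW] at he
    have hb : (n:ℤ) ≤ x ∧ x ≤ w - n ∧ (n:ℤ) ≤ y ∧ y ≤ h - n - 1 := by
      cases b
      · rw [mem_RE_false] at he; omega
      · rw [mem_RE_true] at he; omega
    obtain ⟨b1, b2, b3, b4⟩ := hb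
    obtain ⟨X, hX⟩ : ∃ X : ℕ, (X:ℤ) = x - n := ⟨(x - n).toNat, by omega⟩
    obtain ⟨Y, hY⟩ : ∃ Y : ℕ, (Y:ℤ) = y - n := ⟨(y - n).toNat, by omega⟩
    have i1 : X / g * g ≤ X := Nat.div_mul_le_self _ _
    have i2 : X < X / g * g + g := Nat.lt_div_mul_add hg1
    have j1 : Y / g * g ≤ Y := Nat.div_mul_le_self _ _
    have j2 : Y < Y / g * g + g := Nat.lt_div_mul_add hg1
    refine ⟨(X / g, Y / g), ?_, ?_⟩
    · rw [hI, Finset.mem_filter, Finset.mem_product, Finset.mem_range, Finset.mem_range]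
      refine ⟨⟨Nat.lt_succ_of_le (Nat.div_le_div_right (by omega)),
        Nat.lt_succ_of_le (Nat.div_le_div_right (by omega))⟩, ?_, ?_⟩
      · simp only; omega
      · simp only; omega
    · rw [hB]
      simp only
      unfold blk
      rw [← hg]
      cases b
      · rw [mem_RE_false]
        simp only
        push_cast
        zify at i1 i2 j1 j2
        refine ⟨?_, ?_, ?_, ?_⟩ <;> push_cast at * <;> linarith
      · rw [mem_RE_true]
        simp only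
        push_cast
        zify at i1 i2 j1 j2
        refine ⟨?_, ?_, ?_, ?_⟩ <;> push_cast at * <;> linarith
  have hV := V_le hWS I B hBS hcov (fR w h) hx0 hx1'
  rw [← V2_eq] at hV
  -- one block
  have hone : ∀ p ∈ I, HH (RE 0 (w:ℤ) 0 h) (RE 0 (w:ℤ) 0 h) (B p) (fR w h) x ≤
      C1 * ((r:ℝ) / n) ^ c := by
    intro p hp
    rw [hI, Finset.mem_filter] at hp
    obtain ⟨-, h1, h2⟩ := hp
    rw [hB]
    exact hbox w h n r _ _ hr hrn (by exact_mod_cast Nat.le_add_right n (p.1 * g))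
      (by exact_mod_cast h1) (by exact_mod_cast Nat.le_add_right n (p.2 * g))
      (by exact_mod_cast h2) x hx0 hx1
  have hsum : ∑ p ∈ I, HH (RE 0 (w:ℤ) 0 h) (RE 0 (w:ℤ) 0 h) (B p) (fR w h) x ≤
      (I.card : ℝ) * (C1 * ((r:ℝ) / n) ^ c) := by
    refine (Finset.sum_le_sum hone).trans (le_of_eq ?_)
    rw [Finset.sum_const, nsmul_eq_mul]
  have hwn : (w:ℝ) / n ≤ 2 * L ^ a := by
    rw [div_le_iff₀ hn0]
    have : L ^ a * s = 1 := by rw [hs, ← Real.rpow_add hLp]; simp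
    calc (w:ℝ) = L ^ a * (w * s) := by
          rw [mul_left_comm, this, mul_one]
      _ ≤ L ^ a * (2 * n) := mul_le_mul_of_nonneg_left hn3 (by positivity)
      _ = 2 * L ^ a * n := by ring
  have hgR : (n:ℝ) ≤ 3 * g := by exact_mod_cast hg3
  have hg0 : (0:ℝ) < g := by linarith
  have hnw : (n:ℝ) ≤ w := by
    have : n ≤ w := by omega
    exact_mod_cast this
  have hcard : (I.card : ℝ) ≤ 64 * K * L ^ (2 * a) := by
    have h1 : I.card ≤ (w / g + 1) * (h / g + 1) := by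
      rw [hI]
      refine (Finset.card_filter_le _ _).trans ?_
      rw [Finset.card_product, Finset.card_range, Finset.card_range]
    have h2 : (I.card : ℝ) ≤ ((w / g : ℕ) + 1) * ((h / g : ℕ) + 1) := by exact_mod_cast h1
    have h3 : ((w / g : ℕ) : ℝ) ≤ 3 * (w / n) := by
      refine (Nat.cast_div_le).trans ?_
      rw [← mul_div_assoc, div_le_div_iff₀ hg0 hn0]
      calc (w:ℝ) * n ≤ w * (3 * g) := mul_le_mul_of_nonneg_left hgR (by linarith)
        _ = 3 * w * g := by ring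
    have h4 : ((h / g : ℕ) : ℝ) ≤ 3 * K * (w / n) := by
      refine (Nat.cast_div_le).trans ?_
      rw [← mul_div_assoc, div_le_div_iff₀ hg0 hn0]
      calc (h:ℝ) * n ≤ (K * w) * (3 * g) := mul_le_mul hhwR hgR hn0.le (by positivity)
        _ = 3 * K * w * g := by ring
    have h5 : (1:ℝ) ≤ w / n := by rw [le_div_iff₀ hn0]; linarith
    have h6 : (1:ℝ) ≤ K * (w / n) := one_le_mul_of_one_le_of_one_le (by exact_mod_cast hK) h5
    calc (I.card : ℝ) ≤ ((w / g : ℕ) + 1) * ((h / g : ℕ) + 1) := h2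
      _ ≤ (4 * (w / n)) * (4 * K * (w / n)) :=
          mul_le_mul (by linarith) (by linarith) (by positivity) (by positivity)
      _ = 16 * K * (w / n) ^ 2 := by ring
      _ ≤ 16 * K * (2 * L ^ a) ^ 2 :=
          mul_le_mul_of_nonneg_left (pow_le_pow_left₀ (by positivity) hwn 2) (by positivity)
      _ = 64 * K * (L ^ a) ^ 2 := by ring
      _ = 64 * K * L ^ (2 * a) := by
          rw [← Real.rpow_natCast (L ^ a) 2, ← Real.rpow_mul hLp.le]
          congr 2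
          push_cast; ring
  have hrnR : (r:ℝ) / n ≤ 2 * L ^ (a - 1) := by
    have h1 : (r:ℝ) / n = (w / n) / L := by rw [hL]; field_simp
    rw [h1, Real.rpow_sub hLp, Real.rpow_one, ← mul_div_assoc]
    exact div_le_div_of_nonneg_right hwn hLp.le
  have hpow : ((r:ℝ) / n) ^ c ≤ 2 ^ c * L ^ ((a - 1) * c) := by
    have h1 := Real.rpow_le_rpow (by positivity) hrnR hc.le
    rw [Real.mul_rpow (by norm_num) (by positivity), ← Real.rpow_mul hLp.le] at h1
    exact h1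
  have hT1 : (I.card : ℝ) * (C1 * ((r:ℝ) / n) ^ c) ≤ 64 * K * C1 * 2 ^ c * L ^ (-γ) := by
    calc (I.card : ℝ) * (C1 * ((r:ℝ) / n) ^ c)
        ≤ (64 * K * L ^ (2 * a)) * (C1 * (2 ^ c * L ^ ((a - 1) * c))) :=
          mul_le_mul hcard (mul_le_mul_of_nonneg_left hpow hC1.le) (by positivity) (by positivity)
      _ = 64 * K * C1 * 2 ^ c * (L ^ (2 * a) * L ^ ((a - 1) * c)) := by ring
      _ = 64 * K * C1 * 2 ^ c * L ^ (-(c / 2)) := by rw [← Real.rpow_add hLp, hac]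
      _ ≤ 64 * K * C1 * 2 ^ c * L ^ (-γ) := by
          apply mul_le_mul_of_nonneg_left _ (by positivity)
          exact Real.rpow_le_rpow_of_exponent_le hL1 (by linarith)
  -- the strip
  have hst := strip (w := w) (h := h) (n := n) (by omega) (by omega) (by omega)
  have hsd1 := hsd w h n (by omega) h8w h8h hwh hhw
  rw [← hW, Ex_fR hw] at hst
  have hT2 : C2 * n / w ≤ C2 * L ^ (-γ) := by
    rw [div_le_iff₀ (by linarith)]
    calc C2 * n ≤ C2 * (w * s) := mul_le_mul_of_nonneg_left hn1 hC2.le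
      _ = C2 * s * w := by ring
      _ ≤ C2 * L ^ (-γ) * w := by
          apply mul_le_mul_of_nonneg_right _ (by linarith)
          apply mul_le_mul_of_nonneg_left _ hC2.le
          rw [hs]
          exact Real.rpow_le_rpow_of_exponent_le hL1 (by linarith)
  have hT0 : 0 ≤ L0 ^ γ * L ^ (-γ) := by positivity
  have : (L0 ^ γ + 64 * K * C1 * 2 ^ c + C2) * L ^ (-γ) = L0 ^ γ * L ^ (-γ) +
      64 * K * C1 * 2 ^ c * L ^ (-γ) + C2 * L ^ (-γ) := by ring
  rw [this]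
  linarith

end Pool.Agent.Y197.NW
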